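import Pool.Agent.H983R2.FK.Exit

/-!
# Connection probabilities and decoupling by cluster flips (Edwards-Sokal)
-/

set_option autoImplicit false
set_option linter.unusedSectionVars false

namespace Pool.Agent.Q218.ON

open Finset MeasureTheory Pool.Agent.H983R2.FK Pool.Agent.H983R2.FK.Sys

variable {V Ω : Type*} [Fintype V] [DecidableEq V] [MeasurableSpace Ω] (D : Sys V Ω)

open Classical in
/-- the weight, with density `f`, of the connection of `o` and `z` -/
noncomputable def Ga (f : (V → Ω) → ℝ) (o z : V) : ℝ :=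
  ∑ ω : Finset (V × V), if conn ω o z then (∫ s, f s * D.W ω s ∂D.π) else 0

theorem int_nonneg {f : (V → Ω) → ℝ} (hf0 : ∀ s, 0 ≤ f s) (ω : Finset (V × V)) :
    0 ≤ ∫ s, f s * D.W ω s ∂D.π :=
  integral_nonneg fun s => mul_nonneg (hf0 s) (D.W_nonneg ω s)

theorem Ga_nonneg {f : (V → Ω) → ℝ} (hf0 : ∀ s, 0 ≤ f s) (o z : V) : 0 ≤ Ga D f o z := by
  classical
  unfold Ga
  refine Finset.sum_nonneg fun ω _ => ?_
  split_ifs
  · exact int_nonneg D hf0 ω
  · exact le_rfl

theorem Ga_symm (f : (V → Ω) → ℝ) (o z : V) : Ga D f o z = Ga D f z o := by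
  classical
  unfold Ga
  refine Finset.sum_congr rfl fun ω _ => ?_
  by_cases h : conn ω o z
  · rw [if_pos h, if_pos (conn_symm h)]
  · rw [if_neg h, if_neg fun h' => h (conn_symm h')]

theorem I_sum {f : (V → Ω) → ℝ} (hf : BM f) : D.I f = ∑ ω, ∫ s, f s * D.W ω s ∂D.π := by
  unfold Sys.I
  have h1 : ∀ s, f s * D.wt s = ∑ ω, f s * D.W ω s := by
    intro s
    rw [← Finset.mul_sum, D.W_sum]
  simp only [h1]
  exact integral_finsetSum _ fun ω _ => BM.integrable D (hf.mul (D.BM_W ω))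

theorem Ga_le {f : (V → Ω) → ℝ} (hf : BM f) (hf0 : ∀ s, 0 ≤ f s) (o z : V) :
    Ga D f o z ≤ D.I f := by
  classical
  rw [I_sum D hf]
  unfold Ga
  refine Finset.sum_le_sum fun ω _ => ?_
  split_ifs
  · exact le_rfl
  · exact int_nonneg D hf0 ω

open Classical in
theorem term {f : (V → Ω) → ℝ} (hf : BM f) (hf0 : ∀ s, 0 ≤ f s) {o z w' : V} {e0 : V × V}
    (he0 : e0 = (o, w') ∨ e0 = (w', o)) (hw' : w' ≠ o) :
    (∑ ω : Finset (V × V), if e0 ∈ ω ∧ conn (ω ∩ outer {o}) w' z then
      (∫ s, f s * D.W ω s ∂D.π) else 0)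
      ≤ 2 * D.k e0 * Ga D (fun s => |D.a (s w')| * f s) w' z := by
  have he0' : e0 ∉ outer ({o} : Finset V) := by
    intro h
    simp only [outer, Finset.mem_filter, Finset.mem_univ, true_and, Finset.mem_singleton] at h
    rcases he0 with rfl | rfl
    · exact h.1 rfl
    · exact h.2 rfl
  have hk := D.k0 e0
  have h4 : (∑ ω : Finset (V × V), if e0 ∈ ω ∧ conn (ω ∩ outer {o}) w' z then
      (∫ s, f s * D.W ω s ∂D.π) else 0)
      = ∫ s, f s * (D.p e0 s * D.Q {o} w' z s) * D.wt s ∂D.π := by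
    have h5 : ∀ s, f s * (D.p e0 s * D.Q {o} w' z s) * D.wt s = ∑ ω : Finset (V × V),
        if e0 ∈ ω ∧ conn (ω ∩ outer {o}) w' z then f s * D.W ω s else 0 := by
      intro s
      rw [← D.Q_fac he0' w' z s, Finset.mul_sum, Finset.sum_mul]
      refine Finset.sum_congr rfl fun ω _ => ?_
      split_ifs
      · rw [D.W_eq]; ring
      · ring
    simp only [h5]
    rw [integral_finsetSum _ fun ω _ => BM.integrable D (BM.ite_const _ (hf.mul (D.BM_W ω)))]
    refine Finset.sum_congr rfl fun ω _ => ?_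
    split_ifs
    · rfl
    · rw [integral_zero]
  rw [h4]
  have hBM : BM fun s => |D.a (s w')| * f s := (D.BM_absa w').mul hf
  have h6 : ∫ s, f s * (D.p e0 s * D.Q {o} w' z s) * D.wt s ∂D.π ≤
      ∫ s, 2 * D.k e0 * ((|D.a (s w')| * f s) * D.Q {o} w' z s * D.wt s) ∂D.π := by
    refine integral_mono (BM.integrable D ((hf.mul ((D.BM_p e0).mul (D.BM_Q {o} w' z))).mul
      D.BM_wt)) ((BM.integrable D ((hBM.mul (D.BM_Q {o} w' z)).mul D.BM_wt)).const_mul _)
      fun s => ?_
    have h2 := D.p_le he0 s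
    have h4 := D.Q_nonneg {o} w' z s
    have h5 := D.wt_nonneg s
    have h6 := hf0 s
    have h7 : D.p e0 s * D.Q {o} w' z s ≤ 2 * D.k e0 * |D.a (s w')| * D.Q {o} w' z s :=
      mul_le_mul_of_nonneg_right h2 h4
    calc f s * (D.p e0 s * D.Q {o} w' z s) * D.wt s
        ≤ f s * (2 * D.k e0 * |D.a (s w')| * D.Q {o} w' z s) * D.wt s :=
          mul_le_mul_of_nonneg_right (mul_le_mul_of_nonneg_left h7 h6) h5
      _ = _ := by ring
  refine h6.trans ?_
  rw [integral_const_mul]
  refine mul_le_mul_of_nonneg_left ?_ (by positivity)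
  have h8 : ∀ s, (|D.a (s w')| * f s) * D.Q {o} w' z s * D.wt s
      = ∑ ω : Finset (V × V), if conn (ω ∩ outer {o}) w' z then
        (|D.a (s w')| * f s) * D.W ω s else 0 := by
    intro s
    rw [← D.Q_fac0 {o} w' z s, Finset.mul_sum, Finset.sum_mul]
    refine Finset.sum_congr rfl fun ω _ => ?_
    split_ifs
    · rw [D.W_eq]; ring
    · ring
  simp only [h8]
  rw [integral_finsetSum _ fun ω _ => BM.integrable D (BM.ite_const _
    (hBM.mul (D.BM_W ω)))]
  unfold Ga
  refine Finset.sum_le_sum fun ω _ => ?_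
  have hJ : 0 ≤ ∫ s, (|D.a (s w')| * f s) * D.W ω s ∂D.π :=
    int_nonneg D (fun s => mul_nonneg (abs_nonneg _) (hf0 s)) ω
  by_cases hc : conn (ω ∩ outer {o}) w' z
  · rw [if_pos (conn_mono Finset.inter_subset_left hc)]
    simp only [if_pos hc]
    exact le_rfl
  · simp only [if_neg hc, integral_zero]
    split_ifs
    · exact hJ
    · exact le_rfl

/-- one step away from `o` -/
theorem Ga_step {f : (V → Ω) → ℝ} (hf : BM f) (hf0 : ∀ s, 0 ≤ f s) {o z : V} (hoz : o ≠ z) :
    Ga D f o z ≤ ∑ w' ∈ ({o} : Finset V)ᶜ, 2 * (D.k (o, w') + D.k (w', o)) *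
      Ga D (fun s => |D.a (s w')| * f s) w' z := by
  classical
  set J : Finset (V × V) → ℝ := fun ω => ∫ s, f s * D.W ω s ∂D.π with hJ
  have hJ0 : ∀ ω, 0 ≤ J ω := fun ω => int_nonneg D hf0 ω
  set t : V → V × V → Finset (V × V) → ℝ := fun w' e0 ω =>
    if e0 ∈ ω ∧ conn (ω ∩ outer {o}) w' z then J ω else 0 with ht
  have ht0 : ∀ w' e0 ω, 0 ≤ t w' e0 ω := by
    intro w' e0 ω
    simp only [ht]
    split_ifs
    · exact hJ0 ω
    · exact le_rfl
  have h1 : Ga D f o z ≤
      ∑ ω : Finset (V × V), ∑ w' ∈ ({o} : Finset V)ᶜ, (t w' (o, w') ω + t w' (w', o) ω) := by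
    unfold Ga
    refine Finset.sum_le_sum fun ω _ => ?_
    split_ifs with hc
    · obtain ⟨w, hw, w', hw', hadj, -, hwz⟩ := last_exit {o} ω (Finset.mem_singleton_self o)
        (by rw [Finset.mem_singleton]; exact fun h => hoz h.symm) hc
      rw [Finset.mem_singleton] at hw
      subst hw
      have hs1 : J ω ≤ t w' (w, w') ω + t w' (w', w) ω := by
        rcases hadj with h | h
        · have : t w' (w, w') ω = J ω := by
            simp only [ht]
            rw [if_pos ⟨h, hwz⟩]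
          rw [this]
          linarith [ht0 w' (w', w) ω]
        · have : t w' (w', w) ω = J ω := by
            simp only [ht]
            rw [if_pos ⟨h, hwz⟩]
          rw [this]
          linarith [ht0 w' (w, w') ω]
      refine hs1.trans ?_
      exact Finset.single_le_sum (f := fun w' => t w' (w, w') ω + t w' (w', w) ω)
          (fun w' _ => add_nonneg (ht0 _ _ _) (ht0 _ _ _)) (Finset.mem_compl.2 hw')
    · exact Finset.sum_nonneg fun w' _ => add_nonneg (ht0 _ _ _) (ht0 _ _ _)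
  refine h1.trans ?_
  rw [Finset.sum_comm]
  refine Finset.sum_le_sum fun w' hw' => ?_
  rw [Finset.mem_compl, Finset.mem_singleton] at hw'
  rw [Finset.sum_add_distrib]
  have ha := term D hf hf0 (z := z) (e0 := (o, w')) (Or.inl rfl) hw'
  have hb := term D hf hf0 (z := z) (e0 := (w', o)) (Or.inr rfl) hw'
  refine (add_le_add ha hb).trans (le_of_eq ?_)
  ring

/-- the connection weight is bounded by the two point functions -/
theorem Ga_one {o z : V} (hoz : o ≠ z) :
    Ga D (fun _ => 1) o z ≤ ∑ w ∈ ({o} : Finset V)ᶜ, 2 * (D.k (o, w) + D.k (w, o)) *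
      ((if w = z then D.I (fun _ => 1) else 0) +
        ∑ w' ∈ ({z} : Finset V)ᶜ, 2 * (D.k (z, w') + D.k (w', z)) *
          D.I (fun s => D.a (s w') * D.a (s w))) := by
  classical
  have hone : BM (fun _ : V → Ω => (1 : ℝ)) := ⟨measurable_const, 1, fun s => by simp⟩
  have hI : ∀ w w' : V, 0 ≤ D.I (fun s => D.a (s w') * D.a (s w)) := by
    intro w w'
    rw [D.two_point]
    refine Finset.sum_nonneg fun ω _ => ?_
    split_ifs
    · exact integral_nonneg fun s => mul_nonneg (mul_nonneg (abs_nonneg _) (abs_nonneg _))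
        (D.W_nonneg ω s)
    · exact le_rfl
  refine (Ga_step D hone (fun _ => zero_le_one) hoz).trans (Finset.sum_le_sum fun w hw => ?_)
  have hk1 := D.k0 (o, w)
  have hk2 := D.k0 (w, o)
  refine mul_le_mul_of_nonneg_left ?_ (by positivity)
  have hfw : BM (fun s : V → Ω => |D.a (s w)| * 1) := (D.BM_absa w).mul hone
  have hfw0 : ∀ s : V → Ω, 0 ≤ |D.a (s w)| * 1 := fun s => by positivity
  have hS0 : 0 ≤ ∑ w' ∈ ({z} : Finset V)ᶜ, 2 * (D.k (z, w') + D.k (w', z)) *
      D.I (fun s => D.a (s w') * D.a (s w)) := Finset.sum_nonneg fun w' _ =>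
    mul_nonneg (mul_nonneg (by norm_num) (add_nonneg (D.k0 _) (D.k0 _))) (hI w w')
  by_cases hwz : w = z
  · rw [if_pos hwz]
    have h1 : Ga D (fun s => |D.a (s w)| * 1) w z ≤ D.I (fun _ => 1) := by
      refine (Ga_le D hfw hfw0 w z).trans (D.I_mono hfw hone fun s => ?_)
      rw [mul_one]
      exact D.a1 _
    linarith
  · rw [if_neg hwz, zero_add, Ga_symm]
    refine (Ga_step D hfw hfw0 (Ne.symm hwz)).trans (Finset.sum_le_sum fun w' hw' => ?_)
    have hk3 := D.k0 (z, w')
    have hk4 := D.k0 (w', z)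
    refine mul_le_mul_of_nonneg_left (le_of_eq ?_) (by positivity)
    rw [D.two_point]
    unfold Ga
    simp only [mul_one]

open Classical in
/-- decoupling of two sets of spins -/
theorem decouple (A B : Finset V) {F G : (V → Ω) → ℝ} (hF : BM F) (hG : BM G) {MF MG : ℝ}
    (hFb : ∀ s, |F s| ≤ MF) (hGb : ∀ s, |G s| ≤ MG)
    (hFA : ∀ s s', (∀ v ∈ A, s v = s' v) → F s = F s')
    (hGB : ∀ s s', (∀ v ∈ B, s v = s' v) → G s = G s') :
    |D.I (fun s => F (D.flip A s) * G s) - D.I (fun s => F s * G s)| ≤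
      2 * MF * MG * ∑ x ∈ A, ∑ y ∈ B, Ga D (fun _ => 1) x y := by
  have hfm : Measurable (D.flip A) := (D.flip_mp A).measurable
  have hF' : BM fun s => F (D.flip A s) := ⟨hF.1.comp hfm, MF, fun s => hFb _⟩
  rw [I_sum D (hF'.mul hG), I_sum D (hF.mul hG), ← Finset.sum_sub_distrib]
  have hone : BM (fun _ : V → Ω => (1 : ℝ)) := ⟨measurable_const, 1, fun s => by simp⟩
  have hM0 : ∀ s : V → Ω, 0 ≤ 2 * MF * MG := fun s => by
    have h1 := (abs_nonneg _).trans (hFb s)
    have h2 := (abs_nonneg _).trans (hGb s)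
    positivity
  have key : ∀ ω : Finset (V × V),
      |∫ s, F (D.flip A s) * G s * D.W ω s ∂D.π - ∫ s, F s * G s * D.W ω s ∂D.π| ≤
      2 * MF * MG * ∑ x ∈ A, ∑ y ∈ B, if conn ω x y then (∫ s, 1 * D.W ω s ∂D.π) else 0 := by
    intro ω
    have hW0 := int_nonneg D (f := fun _ => 1) (fun _ => zero_le_one) ω
    have hsum0 : ∀ x ∈ A, 0 ≤ ∑ y ∈ B, if conn ω x y then (∫ s, 1 * D.W ω s ∂D.π) else 0 := by
      intro x _
      refine Finset.sum_nonneg fun y _ => ?_
      split_ifs
      · exact hW0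
      · exact le_rfl
    haveI := D.prob
    haveI hprob : IsProbabilityMeasure D.π := by unfold Sys.π; infer_instance
    obtain ⟨s0⟩ : Nonempty (V → Ω) := nonempty_of_isProbabilityMeasure D.π
    by_cases hc : ∃ x ∈ A, ∃ y ∈ B, conn ω x y
    · obtain ⟨x, hx, y, hy, hxy⟩ := hc
      have h1 : (∫ s, 1 * D.W ω s ∂D.π) ≤
          ∑ x ∈ A, ∑ y ∈ B, if conn ω x y then (∫ s, 1 * D.W ω s ∂D.π) else 0 := by
        refine le_trans ?_ (Finset.single_le_sum (f := fun x => ∑ y ∈ B,
          if conn ω x y then (∫ s, 1 * D.W ω s ∂D.π) else 0) hsum0 hx)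
        refine le_trans ?_ (Finset.single_le_sum (f := fun y =>
          if conn ω x y then (∫ s, 1 * D.W ω s ∂D.π) else 0) (fun y _ => ?_) hy)
        · rw [if_pos hxy]
        · split_ifs
          · exact hW0
          · exact le_rfl
      refine le_trans ?_ (mul_le_mul_of_nonneg_left h1 (hM0 s0))
      rw [← integral_sub (BM.integrable D ((hF'.mul hG).mul (D.BM_W ω)))
        (BM.integrable D ((hF.mul hG).mul (D.BM_W ω))), ← integral_const_mul]
      refine abs_integral_le_integral_abs.trans (integral_mono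
        (BM.integrable D ?_) ((BM.integrable D (hone.mul (D.BM_W ω))).const_mul _) fun s => ?_)
      · obtain ⟨m1, C1, h1⟩ := (hF'.mul hG).mul (D.BM_W ω)
        obtain ⟨m2, C2, h2⟩ := (hF.mul hG).mul (D.BM_W ω)
        exact ⟨(m1.sub m2).abs, C1 + C2, fun s => by
          rw [abs_abs]; exact (abs_sub _ _).trans (add_le_add (h1 s) (h2 s))⟩
      · have h2 : F (D.flip A s) * G s * D.W ω s - F s * G s * D.W ω s =
            (F (D.flip A s) - F s) * G s * D.W ω s := by ring
        simp only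
        rw [h2, abs_mul, abs_mul, abs_of_nonneg (D.W_nonneg ω s), one_mul]
        refine mul_le_mul_of_nonneg_right ?_ (D.W_nonneg ω s)
        have h3 : |F (D.flip A s) - F s| ≤ 2 * MF :=
          (abs_sub _ _).trans (by linarith [hFb (D.flip A s), hFb s])
        exact mul_le_mul h3 (hGb s) (abs_nonneg _) ((abs_nonneg _).trans h3)
    · push Not at hc
      set C : Finset V := Finset.univ.filter fun v => ∃ x ∈ A, conn ω x v with hC
      have hmem : ∀ v, v ∈ C ↔ ∃ x ∈ A, conn ω x v := fun v => by simp [hC]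
      have hAC : ∀ v ∈ A, v ∈ C := fun v hv => (hmem v).2 ⟨v, hv, Relation.ReflTransGen.refl⟩
      have hBC : ∀ v ∈ B, v ∉ C := fun v hv h => by
        obtain ⟨x, hx, hxv⟩ := (hmem v).1 h
        exact hc x hx v hv hxv
      have hedge : ∀ e ∈ ω, (e.1 ∈ C ↔ e.2 ∈ C) := by
        intro e he
        rw [hmem, hmem]
        constructor
        · rintro ⟨x, hx, h⟩
          exact ⟨x, hx, Relation.ReflTransGen.tail h (Or.inl he)⟩
        · rintro ⟨x, hx, h⟩
          exact ⟨x, hx, Relation.ReflTransGen.tail h (Or.inr he)⟩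
      have hFC : ∀ s, F (D.flip C s) = F (D.flip A s) := by
        intro s
        refine hFA _ _ fun v hv => ?_
        unfold Sys.flip
        rw [if_pos (hAC v hv), if_pos hv]
      have hGC : ∀ s, G (D.flip C s) = G s := by
        intro s
        refine hGB _ _ fun v hv => ?_
        unfold Sys.flip
        rw [if_neg (hBC v hv)]
      have h1 := (D.flip_mp C).map_eq
      have h2 : ∫ s, F s * G s * D.W ω s ∂D.π = ∫ s, F (D.flip A s) * G s * D.W ω s ∂D.π := by
        conv_lhs => rw [← h1]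
        rw [integral_map (D.flip_mp C).measurable.aemeasurable]
        · refine integral_congr_ae (ae_of_all _ fun s => ?_)
          simp only
          rw [hFC, hGC, D.W_flip hedge]
        · rw [h1]
          exact ((hF.mul hG).mul (D.BM_W ω)).1.aestronglyMeasurable
      rw [h2, sub_self, abs_zero]
      exact mul_nonneg (hM0 s0) (Finset.sum_nonneg hsum0)
  refine (Finset.abs_sum_le_sum_abs _ _).trans ((Finset.sum_le_sum fun ω _ => key ω).trans ?_)
  rw [← Finset.mul_sum, Finset.sum_comm]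
  have h3 : ∑ x ∈ A, ∑ ω : Finset (V × V), ∑ y ∈ B,
      (if conn ω x y then (∫ s, 1 * D.W ω s ∂D.π) else 0) =
      ∑ x ∈ A, ∑ y ∈ B, Ga D (fun _ => 1) x y := by
    refine Finset.sum_congr rfl fun x _ => ?_
    rw [Finset.sum_comm]
    rfl
  rw [h3]

end Pool.Agent.Q218.ON
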