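import Pool.Agent.Q218.ON.Conn

/-!
# Decoupling from one vertex whose spin is kept
-/

set_option autoImplicit false
set_option linter.unusedSectionVars false

namespace Pool.Agent.Q218.ON

open Finset MeasureTheory Pool.Agent.H983R2.FK Pool.Agent.H983R2.FK.Sys

variable {V Ω : Type*} [Fintype V] [DecidableEq V] [MeasurableSpace Ω] (D : Sys V Ω)

open Classical in
/-- decoupling of a set of spins from one spin, with weight -/
theorem decouple2 (A : Finset V) (b : V) {F G : (V → Ω) → ℝ} (hF : BM F) (hG : BM G)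
    (hFb : ∀ s, |F s| ≤ 1) (hG0 : ∀ s, 0 ≤ G s)
    (hFA : ∀ s s', (∀ v ∈ A, s v = s' v) → F s = F s')
    (hGB : ∀ s s' : V → Ω, s b = s' b → G s = G s') :
    |D.I (fun s => F (D.flip A s) * G s) - D.I (fun s => F s * G s)| ≤
      2 * ∑ x ∈ A, Ga D G x b := by
  have hfm : Measurable (D.flip A) := (D.flip_mp A).measurable
  have hF' : BM fun s => F (D.flip A s) := ⟨hF.1.comp hfm, 1, fun s => hFb _⟩
  rw [I_sum D (hF'.mul hG), I_sum D (hF.mul hG), ← Finset.sum_sub_distrib]
  have key : ∀ ω : Finset (V × V),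
      |∫ s, F (D.flip A s) * G s * D.W ω s ∂D.π - ∫ s, F s * G s * D.W ω s ∂D.π| ≤
      2 * ∑ x ∈ A, if conn ω x b then (∫ s, G s * D.W ω s ∂D.π) else 0 := by
    intro ω
    have hW0 := int_nonneg D (f := G) hG0 ω
    have hterm0 : ∀ x ∈ A, 0 ≤ if conn ω x b then (∫ s, G s * D.W ω s ∂D.π) else 0 := by
      intro x _
      split_ifs
      · exact hW0
      · exact le_rfl
    by_cases hc : ∃ x ∈ A, conn ω x b
    · obtain ⟨x, hx, hxy⟩ := hc
      have h1 : (∫ s, G s * D.W ω s ∂D.π) ≤
          ∑ x ∈ A, if conn ω x b then (∫ s, G s * D.W ω s ∂D.π) else 0 := by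
        refine le_trans ?_ (Finset.single_le_sum (f := fun x =>
          if conn ω x b then (∫ s, G s * D.W ω s ∂D.π) else 0) hterm0 hx)
        rw [if_pos hxy]
      refine le_trans ?_ (mul_le_mul_of_nonneg_left h1 (by norm_num))
      rw [← integral_sub (BM.integrable D ((hF'.mul hG).mul (D.BM_W ω)))
        (BM.integrable D ((hF.mul hG).mul (D.BM_W ω))), ← integral_const_mul]
      refine abs_integral_le_integral_abs.trans (integral_mono
        (BM.integrable D ?_) ((BM.integrable D (hG.mul (D.BM_W ω))).const_mul _) fun s => ?_)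
      · obtain ⟨m1, C1, h1⟩ := (hF'.mul hG).mul (D.BM_W ω)
        obtain ⟨m2, C2, h2⟩ := (hF.mul hG).mul (D.BM_W ω)
        exact ⟨(m1.sub m2).abs, C1 + C2, fun s => by
          rw [abs_abs]; exact (abs_sub _ _).trans (add_le_add (h1 s) (h2 s))⟩
      · have h2 : F (D.flip A s) * G s * D.W ω s - F s * G s * D.W ω s =
            (F (D.flip A s) - F s) * (G s * D.W ω s) := by ring
        simp only
        rw [h2, abs_mul, abs_of_nonneg (mul_nonneg (hG0 s) (D.W_nonneg ω s))]
        refine mul_le_mul_of_nonneg_right ?_ (mul_nonneg (hG0 s) (D.W_nonneg ω s))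
        exact (abs_sub _ _).trans (by linarith [hFb (D.flip A s), hFb s])
    · push Not at hc
      set C : Finset V := Finset.univ.filter fun v => ∃ x ∈ A, conn ω x v with hC
      have hmem : ∀ v, v ∈ C ↔ ∃ x ∈ A, conn ω x v := fun v => by simp [hC]
      have hAC : ∀ v ∈ A, v ∈ C := fun v hv => (hmem v).2 ⟨v, hv, Relation.ReflTransGen.refl⟩
      have hBC : b ∉ C := fun h => by
        obtain ⟨x, hx, hxv⟩ := (hmem b).1 h
        exact hc x hx hxv
      have hedge : ∀ e ∈ ω, (e.1 ∈ C ↔ e.2 ∈ C) := by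
        intro e he
        rw [hmem, hmem]
        constructor
        · rintro ⟨x, hx, h⟩
          exact ⟨x, hx, Relation.ReflTransGen.tail h (Or.inl he)⟩
        · rintro ⟨x, hx, h⟩
          exact ⟨x, hx, Relation.ReflTransGen.tail h (Or.inr he)⟩
      have hFC : ∀ s, F (D.flip C s) = F (D.flip A s) := by
        intro s
        refine hFA _ _ fun v hv => ?_
        unfold Sys.flip
        rw [if_pos (hAC v hv), if_pos hv]
      have hGC : ∀ s, G (D.flip C s) = G s := by
        intro s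
        refine hGB _ _ ?_
        unfold Sys.flip
        rw [if_neg hBC]
      have h1 := (D.flip_mp C).map_eq
      have h2 : ∫ s, F s * G s * D.W ω s ∂D.π = ∫ s, F (D.flip A s) * G s * D.W ω s ∂D.π := by
        conv_lhs => rw [← h1]
        rw [integral_map (D.flip_mp C).measurable.aemeasurable]
        · refine integral_congr_ae (ae_of_all _ fun s => ?_)
          simp only
          rw [hFC, hGC, D.W_flip hedge]
        · rw [h1]
          exact ((hF.mul hG).mul (D.BM_W ω)).1.aestronglyMeasurable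
      rw [h2, sub_self, abs_zero]
      exact mul_nonneg (by norm_num) (Finset.sum_nonneg hterm0)
  refine (Finset.abs_sum_le_sum_abs _ _).trans ((Finset.sum_le_sum fun ω _ => key ω).trans ?_)
  rw [← Finset.mul_sum, Finset.sum_comm]
  rfl

/-- connection to `b` in terms of the sign of the component at `b` -/
theorem Ga_sg {w b : V} (hwb : w ≠ b) {φ : (V → Ω) → ℝ} (hφ : BM φ)
    (hφb : ∀ s s' : V → Ω, s b = s' b → φ s = φ s') :
    Ga D (fun s => |D.a (s w)| * φ s) w b =
      D.I (fun s => D.a (s w) * (sg (D.a (s b)) * φ s)) := by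
  classical
  rw [I_sum D ((D.BM_a w).mul ((D.BM_sg b).mul hφ))]
  unfold Ga
  refine Finset.sum_congr rfl fun ω _ => ?_
  split_ifs with hc
  · refine integral_congr_ae (ae_of_all _ fun s => ?_)
    by_cases hW : D.W ω s = 0
    · simp only [hW, mul_zero]
    · simp only
      congr 1
      rcases D.conn_sign (fun e he => D.x_pos_of_W hW he) hc with h | hpos
      · exact absurd h hwb
      · rw [← mul_assoc, mul_sg_of_pos hpos]
  · symm
    refine D.int_odd (C := clu ω w) (fun e he => clu_edge e he)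
      ((D.BM_a w).mul ((D.BM_sg b).mul hφ)) fun s => ?_
    have ho : w ∈ clu ω w := mem_clu.2 Relation.ReflTransGen.refl
    have hz : b ∉ clu ω w := fun h => hc (mem_clu.1 h)
    have h1 : φ (D.flip (clu ω w) s) = φ s := hφb _ _ (by
      unfold Sys.flip
      rw [if_neg hz])
    rw [h1]
    unfold Sys.flip
    rw [if_pos ho, if_neg hz, D.odd]
    ring

/-- connection of `x` and `b` -/
theorem Ga_b {x b : V} (hxb : x ≠ b) {φ : (V → Ω) → ℝ} (hφ : BM φ) (hφ0 : ∀ s, 0 ≤ φ s)
    (hφb : ∀ s s' : V → Ω, s b = s' b → φ s = φ s') (u : V → ℝ)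
    (hub : D.I φ ≤ u b)
    (hu : ∀ w, w ≠ b → D.I (fun s => D.a (s w) * (sg (D.a (s b)) * φ s)) ≤ u w)
    (hu0 : ∀ w, 0 ≤ u w) :
    Ga D φ x b ≤ ∑ w : V, 2 * (D.k (x, w) + D.k (w, x)) * u w := by
  classical
  have hk : ∀ w, 0 ≤ 2 * (D.k (x, w) + D.k (w, x)) := fun w =>
    mul_nonneg (by norm_num) (add_nonneg (D.k0 _) (D.k0 _))
  refine (Ga_step D hφ hφ0 hxb).trans ((Finset.sum_le_sum fun w _ => ?_).trans
    (Finset.sum_le_univ_sum_of_nonneg fun w => mul_nonneg (hk w) (hu0 w)))
  refine mul_le_mul_of_nonneg_left ?_ (hk w)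
  by_cases hwb : w = b
  · subst hwb
    have h1 : BM fun s => |D.a (s w)| * φ s := (D.BM_absa w).mul hφ
    refine (Ga_le D h1 (fun s => mul_nonneg (abs_nonneg _) (hφ0 s)) w w).trans
      ((D.I_mono h1 hφ fun s => ?_).trans hub)
    exact mul_le_of_le_one_left (hφ0 s) (D.a1 _)
  · rw [Ga_sg D hwb hφ hφb]
    exact hu w hwb

end Pool.Agent.Q218.ON
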