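import Pool.Agent.Q218.ON.Haar

/-!
# Domination of all non-singlet channels by the two point function
-/

set_option autoImplicit false

noncomputable section

namespace Pool.Agent.Q218.ON

open MeasureTheory Pool.Agent.H5R2.ON Pool.Agent.H717R2.ON3 Pool.Agent.H983R2.ONJ
open Pool.Agent.H983R2

/-- the coupling of the unordered pair `{x, y}`, times two -/
def kap {L : ℕ} (c : Tor L × Tor L → ℝ) (x y : Tor L) : ℝ := 2 * (c (x, y) + c (y, x))

open Classical in
/-- the bound for the connection probability of `x` and `y` -/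
def Th {N L : ℕ} [NeZero L] (c : Tor L × Tor L → ℝ) (i : Fin N) (x y : Tor L) : ℝ :=
  if x = y then 1 else kap c x y +
    ∑ w : Tor L, ∑ w' : Tor L, kap c x w * kap c y w' * corJ c i w w'

theorem kap_nonneg {L : ℕ} {c : Tor L × Tor L → ℝ} (hc : ∀ e, 0 ≤ c e) (x y : Tor L) :
    0 ≤ kap c x y := mul_nonneg (by norm_num) (add_nonneg (hc _) (hc _))

theorem corJ_comm {N L : ℕ} [NeZero L] (c : Tor L × Tor L → ℝ) (i : Fin N) (x y : Tor L) :
    corJ c i x y = corJ c i y x := by
  unfold corJ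
  congr 1
  refine integral_congr_ae (Filter.Eventually.of_forall fun S => ?_)
  simp only
  ring

theorem Th_nonneg {N L : ℕ} [NeZero L] (hN : N ≠ 0) {c : Tor L × Tor L → ℝ}
    (hc : ∀ e, 0 ≤ c e) (i : Fin N) (x y : Tor L) : 0 ≤ Th c i x y := by
  unfold Th
  split_ifs
  · exact zero_le_one
  · refine add_nonneg (kap_nonneg hc x y) (Finset.sum_nonneg fun w _ => Finset.sum_nonneg
      fun w' _ => mul_nonneg (mul_nonneg (kap_nonneg hc _ _) (kap_nonneg hc _ _))
      (corJ_nonneg hN hc i _ _))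

theorem conn_gen {N L : ℕ} [NeZero L] (hN : N ≠ 0) {c : Tor L × Tor L → ℝ}
    (hc : ∀ e, 0 ≤ c e) (i : Fin N) {v : EN N} (hv : ‖v‖ = 1) (x y : Tor L) :
    Ga (sysV hN hc hv) (fun _ => 1) x y ≤ Th c i x y *
      ∫ S : Conf N L, Real.exp (pS c S) ∂(prior N L) := by
  classical
  set Z : ℝ := ∫ S : Conf N L, Real.exp (pS c S) ∂(prior N L) with hZdef
  have hZ : 0 < Z := Aux269.Z_pos (N := N) hN c
  set D := sysV hN hc hv with hD
  have hI1 : D.I (fun _ => 1) = Z := by
    rw [hD, IV_eq]
    simp only [one_mul]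
    rfl
  have hone : FK.Sys.BM (fun _ : Conf N L => (1 : ℝ)) :=
    ⟨measurable_const, 1, fun s => by simp⟩
  by_cases hxy : x = y
  · subst hxy
    refine (Ga_le D hone (fun _ => zero_le_one) x x).trans ?_
    rw [hI1]
    unfold Th
    rw [if_pos rfl, one_mul]
  have htwo : ∀ w w' : Tor L, D.I (fun s => D.a (s w') * D.a (s w)) = corJ c i w w' * Z := by
    intro w w'
    rw [corJ_comm, hD, IV_eq]
    exact two_dir hN c hv i w' w
  have hk : ∀ u w : Tor L, 2 * (D.k (u, w) + D.k (w, u)) = kap c u w := fun u w => rfl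
  have hcn : ∀ w w' : Tor L, 0 ≤ corJ c i w w' := fun w w' => corJ_nonneg hN hc i w w'
  calc Ga D (fun _ => 1) x y
      ≤ ∑ w ∈ ({x} : Finset (Tor L))ᶜ, 2 * (D.k (x, w) + D.k (w, x)) *
        ((if w = y then D.I (fun _ => 1) else 0) +
        ∑ w' ∈ ({y} : Finset (Tor L))ᶜ, 2 * (D.k (y, w') + D.k (w', y)) *
          D.I (fun s => D.a (s w') * D.a (s w))) := Ga_one D hxy
    _ = ∑ w ∈ ({x} : Finset (Tor L))ᶜ, kap c x w * ((if w = y then Z else 0) +
        ∑ w' ∈ ({y} : Finset (Tor L))ᶜ, kap c y w' * (corJ c i w w' * Z)) := by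
        simp only [hk, hI1, htwo]
    _ ≤ ∑ w : Tor L, kap c x w * ((if w = y then Z else 0) +
        ∑ w' : Tor L, kap c y w' * (corJ c i w w' * Z)) := by
        refine (Finset.sum_le_sum fun w _ => mul_le_mul_of_nonneg_left
          (add_le_add le_rfl (Finset.sum_le_univ_sum_of_nonneg fun w' =>
            mul_nonneg (kap_nonneg hc y w') (mul_nonneg (hcn w w') hZ.le)))
          (kap_nonneg hc x w)).trans ?_
        refine Finset.sum_le_univ_sum_of_nonneg fun w => mul_nonneg (kap_nonneg hc x w)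
          (add_nonneg ?_ (Finset.sum_nonneg fun w' _ => mul_nonneg (kap_nonneg hc y w')
            (mul_nonneg (hcn w w') hZ.le)))
        split_ifs
        · exact hZ.le
        · exact le_rfl
    _ = Th c i x y * Z := by
        unfold Th
        rw [if_neg hxy, add_mul]
        have h1 : ∀ w : Tor L, kap c x w * ((if w = y then Z else 0) +
            ∑ w' : Tor L, kap c y w' * (corJ c i w w' * Z)) =
            (if w = y then kap c x y * Z else 0) +
            (∑ w' : Tor L, kap c x w * kap c y w' * corJ c i w w') * Z := by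
          intro w
          rw [mul_add, Finset.mul_sum, Finset.sum_mul]
          congr 1
          · split_ifs with h
            · rw [h]
            · rw [mul_zero]
          · refine Finset.sum_congr rfl fun w' _ => ?_
            ring
        simp only [h1]
        rw [Finset.sum_add_distrib, Finset.sum_ite_eq' Finset.univ y, if_pos (Finset.mem_univ y),
          ← Finset.sum_mul]

theorem ref_gen {N L : ℕ} [NeZero L] (hN0 : N ≠ 0) {c : Tor L × Tor L → ℝ}
    (hc : ∀ e, 0 ≤ c e) (i : Fin N) (X Y : Finset (Tor L)) (F G : Conf N L → ℝ)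
    (hF : Measurable F) (hG : Measurable G) (hF1 : ∀ S, |F S| ≤ 1) (hG1 : ∀ S, |G S| ≤ 1)
    (hFX : DependsOn F (X : Set (Tor L))) (hGY : DependsOn G (Y : Set (Tor L))) (v : EN N) :
    |gib c (fun S => F (rotC (rho v) S) * G S) - gib c (fun S => F S * G S)| ≤
      2 * ∑ x ∈ X, ∑ y ∈ Y, Th c i x y := by
  by_cases hv0 : v = 0
  · subst hv0
    simp only [rotC_rho_zero, sub_self, abs_zero]
    exact mul_nonneg (by norm_num) (Finset.sum_nonneg fun x _ => Finset.sum_nonneg fun y _ =>
      Th_nonneg hN0 hc i x y)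
  rw [rho_smul hv0]
  obtain ⟨u, hu⟩ : ∃ u : EN N, u = ‖v‖⁻¹ • v := ⟨_, rfl⟩
  have hu1 : ‖u‖ = 1 := by
    rw [hu, norm_smul, norm_inv, norm_norm, inv_mul_cancel₀ (norm_ne_zero_iff.2 hv0)]
  rw [← hu]
  set D := sysV hN0 hc hu1 with hD
  have hZ := Aux269.Z_pos (N := N) hN0 c
  have hdec := decouple D X Y ⟨hF, 1, hF1⟩ ⟨hG, 1, hG1⟩ hF1 hG1
    (fun s s' hs => hFX fun x hx => hs x hx) (fun s s' hs => hGY fun x hx => hs x hx)
  have hflip : ∀ S : Conf N L, F (D.flip X S) = F (rotC (rho u) S) := by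
    intro S
    refine hFX fun x hx => ?_
    have hx' : x ∈ X := hx
    unfold FK.Sys.flip rotC
    rw [if_pos hx']
    rfl
  simp only [hflip] at hdec
  rw [hD, IV_eq, IV_eq, ← hD] at hdec
  unfold gib
  rw [← sub_div, abs_div, abs_of_pos hZ, div_le_iff₀ hZ]
  refine hdec.trans ?_
  have h3 : ∑ x ∈ X, ∑ y ∈ Y, Ga D (fun _ => 1) x y ≤
      (∑ x ∈ X, ∑ y ∈ Y, Th c i x y) * ∫ S : Conf N L, Real.exp (pS c S) ∂(prior N L) := by
    rw [Finset.sum_mul]
    refine Finset.sum_le_sum fun x _ => ?_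
    rw [Finset.sum_mul]
    exact Finset.sum_le_sum fun y _ => conn_gen hN0 hc i hu1 x y
  linarith

theorem list_gen {N L : ℕ} [NeZero L] (hN0 : N ≠ 0) {c : Tor L × Tor L → ℝ}
    (hc : ∀ e, 0 ≤ c e) (i : Fin N) (X Y : Finset (Tor L)) (G : Conf N L → ℝ)
    (hG : Measurable G) (hG1 : ∀ S, |G S| ≤ 1) (hGY : DependsOn G (Y : Set (Tor L))) :
    ∀ (l : List (EN N)) (F : Conf N L → ℝ), Measurable F → (∀ S, |F S| ≤ 1) →
      DependsOn F (X : Set (Tor L)) →
      |gib c (fun S => F (rotC (l.map rho).prod S) * G S) - gib c (fun S => F S * G S)| ≤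
        l.length * (2 * ∑ x ∈ X, ∑ y ∈ Y, Th c i x y) := by
  intro l
  induction l with
  | nil =>
    intro F _ _ _
    simp [rotC_one]
  | cons v l ih =>
    intro F hF hF1 hFX
    have hF' : Measurable fun S => F (rotC (rho v) S) := hF.comp (meas_rotC _)
    have h1 := ih (fun S => F (rotC (rho v) S)) hF' (fun S => hF1 _) (fun S S' hS => by
      refine hFX fun x hx => ?_
      unfold rotC
      rw [hS x hx])
    have h2 := ref_gen hN0 hc i X Y F G hF hG hF1 hG1 hFX hGY v
    have h3 : ∀ S : Conf N L, rotC ((v :: l).map rho).prod S =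
        rotC (rho v) (rotC (l.map rho).prod S) := by
      intro S
      rw [List.map_cons, List.prod_cons, rotC_mul]
    simp only [h3]
    have h4 : ((v :: l).length : ℝ) * (2 * ∑ x ∈ X, ∑ y ∈ Y, Th c i x y) =
        l.length * (2 * ∑ x ∈ X, ∑ y ∈ Y, Th c i x y) + 2 * ∑ x ∈ X, ∑ y ∈ Y, Th c i x y := by
      rw [List.length_cons]
      push_cast
      ring
    rw [h4]
    exact (abs_sub_le _ _ _).trans (add_le_add h1 h2)

theorem rot_gen {N L : ℕ} [NeZero L] (hN0 : N ≠ 0) {c : Tor L × Tor L → ℝ}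
    (hc : ∀ e, 0 ≤ c e) (i : Fin N) (X Y : Finset (Tor L)) (F G : Conf N L → ℝ)
    (hF : Measurable F) (hG : Measurable G) (hF1 : ∀ S, |F S| ≤ 1) (hG1 : ∀ S, |G S| ≤ 1)
    (hFX : DependsOn F (X : Set (Tor L))) (hGY : DependsOn G (Y : Set (Tor L)))
    (Q : EN N ≃ₗᵢ[ℝ] EN N) :
    |gib c (fun S => F (rotC Q S) * G S) - gib c (fun S => F S * G S)| ≤
      N * (2 * ∑ x ∈ X, ∑ y ∈ Y, Th c i x y) := by
  obtain ⟨l, hl, hQ⟩ := LinearIsometryEquiv.reflections_generate_dim Q
  have h1 := list_gen hN0 hc i X Y G hG hG1 hGY l F hF hF1 hFX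
  have h2 : Q = (l.map rho).prod := hQ
  rw [h2]
  refine h1.trans ?_
  rw [finrank_euclideanSpace_fin] at hl
  have h3 : (l.length : ℝ) ≤ N := by exact_mod_cast hl
  refine mul_le_mul_of_nonneg_right h3 (mul_nonneg (by norm_num) (Finset.sum_nonneg fun x _ =>
    Finset.sum_nonneg fun y _ => Th_nonneg hN0 hc i x y))

/-- averaging: a bound for all rotations gives a bound for the truncated correlation -/
theorem avg_gen {N L : ℕ} [NeZero L] (hN0 : N ≠ 0) (c : Tor L × Tor L → ℝ) (x y : Tor L)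
    {f g : Sph N → ℝ} (hf : Measurable f) (hg : Measurable g) (hf1 : ∀ s, |f s| ≤ 1)
    (hg1 : ∀ s, |g s| ≤ 1) {K : ℝ}
    (hrot : ∀ U : OG N, |gib c (fun S : Conf N L => f (act U (S x)) * g (S y)) -
      gib c (fun S : Conf N L => f (S x) * g (S y))| ≤ K) :
    |gib c (fun S : Conf N L => f (S x) * g (S y)) -
      (∫ s, f s ∂(unif N)) * ∫ s, g s ∂(unif N)| ≤ K := by
  haveI := hm_prob N
  haveI := prior_isProbabilityMeasure N L hN0
  have hcont : Continuous fun S : Conf N L => Real.exp (pS c S) :=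
    Real.continuous_exp.comp (continuous_pS c)
  obtain ⟨B, hB⟩ := Aux269.bdd_of_continuous hcont
  have hgm : Measurable fun S : Conf N L => g (S y) := hg.comp (measurable_pi_apply y)
  have havg : ∫ U, gib c (fun S : Conf N L => f (act U (S x)) * g (S y)) ∂(hm N) =
      (∫ s, f s ∂(unif N)) * ∫ s, g s ∂(unif N) := by
    have h1 := avg_one (L := L) hN0 hf hf1 x (h := fun S => g (S y) * Real.exp (pS c S))
      (hgm.mul hcont.measurable) (B := 1 * B) (fun S => by
        rw [abs_mul]
        exact mul_le_mul (hg1 _) (hB S) (abs_nonneg _) zero_le_one)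
    have h2 := gib_one hN0 c hg hg1 y
    unfold gib at h2 ⊢
    rw [integral_div]
    have h3 : ∀ (U : OG N), ∫ S : Conf N L, f (act U (S x)) * g (S y) * Real.exp (pS c S)
        ∂(prior N L) = ∫ S : Conf N L, f (act U (S x)) * (g (S y) * Real.exp (pS c S))
        ∂(prior N L) := by
      intro U
      refine integral_congr_ae (Filter.Eventually.of_forall fun S => ?_)
      simp only
      ring
    simp only [h3]
    rw [h1, mul_div_assoc, h2]
  have hmeas : Integrable (fun U => gib c (fun S : Conf N L => f (act U (S x)) * g (S y)))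
      (hm N) := by
    have hint : Integrable (Function.uncurry fun (U : OG N) (S : Conf N L) =>
        f (act U (S x)) * g (S y) * Real.exp (pS c S)) ((hm N).prod (prior N L)) := by
      refine Integrable.of_bound (C := 1 * 1 * B) ?_ (Filter.Eventually.of_forall fun p => ?_)
      · have h3 : Measurable fun p : OG N × Conf N L => act p.1 (p.2 x) :=
          (continuous_act.comp (continuous_fst.prodMk
            ((continuous_apply x).comp continuous_snd))).measurable
        exact (((hf.comp h3).mul (hgm.comp measurable_snd)).mul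
          (hcont.measurable.comp measurable_snd)).aestronglyMeasurable
      · rw [Real.norm_eq_abs]
        simp only [Function.uncurry]
        rw [abs_mul, abs_mul]
        exact mul_le_mul (mul_le_mul (hf1 _) (hg1 _) (abs_nonneg _) zero_le_one) (hB _)
          (abs_nonneg _) (by norm_num)
    exact hint.integral_prod_left.div_const _
  rw [← havg]
  have h5 : gib c (fun S : Conf N L => f (S x) * g (S y)) =
      ∫ _U : OG N, gib c (fun S : Conf N L => f (S x) * g (S y)) ∂(hm N) := by
    simp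
  rw [h5, ← integral_sub (integrable_const _) hmeas]
  refine (abs_integral_le_integral_abs).trans ?_
  have h6 : ∫ U, |gib c (fun S : Conf N L => f (S x) * g (S y)) -
      gib c (fun S : Conf N L => f (act U (S x)) * g (S y))| ∂(hm N) ≤
      ∫ _U : OG N, K ∂(hm N) := by
    refine integral_mono ((integrable_const _).sub hmeas).abs (integrable_const _) fun U => ?_
    simp only
    rw [abs_sub_comm]
    exact hrot U
  refine h6.trans (le_of_eq ?_)
  simp

theorem two_gen {N L : ℕ} [NeZero L] (hN0 : N ≠ 0) {c : Tor L × Tor L → ℝ}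
    (hc : ∀ e, 0 ≤ c e) (i : Fin N) (x y : Tor L)
    {f g : Sph N → ℝ} (hf : Measurable f) (hg : Measurable g) (hf1 : ∀ s, |f s| ≤ 1)
    (hg1 : ∀ s, |g s| ≤ 1) :
    |gib c (fun S : Conf N L => f (S x) * g (S y)) -
      (∫ s, f s ∂(unif N)) * ∫ s, g s ∂(unif N)| ≤ N * (2 * Th c i x y) := by
  refine avg_gen hN0 c x y hf hg hf1 hg1 fun U => ?_
  have hgm : Measurable fun S : Conf N L => g (S y) := hg.comp (measurable_pi_apply y)
  have hfm : Measurable fun S : Conf N L => f (S x) := hf.comp (measurable_pi_apply x)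
  have h1 := rot_gen hN0 hc i {x} {y} (fun S => f (S x)) (fun S => g (S y)) hfm hgm
    (fun S => hf1 _) (fun S => hg1 _)
    (fun S S' hS => by
      have := hS x (by simp)
      simp only [this])
    (fun S S' hS => by
      have := hS y (by simp)
      simp only [this]) (Unitary.linearIsometryEquiv U⁻¹)
  rw [Finset.sum_singleton, Finset.sum_singleton] at h1
  exact h1

/-- the rate of the two point function is a rate for `Th` -/
theorem Th_rate (A a C m : ℝ) (hA : 0 ≤ A) (hC : 0 ≤ C) (hm : 0 ≤ m) (hma : m < a) :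
    ∃ K : ℝ, 0 < K ∧ ∀ (N : ℕ) (L : ℕ) [NeZero L] (c : Tor L × Tor L → ℝ), N ≠ 0 →
      ExpC A a c → ∀ i : Fin N,
      (∀ x y : Tor L, corJ c i x y ≤ C * Real.exp (-m * tnorm (x - y))) →
      ∀ x y : Tor L, Th c i x y ≤ K * Real.exp (-m * tnorm (x - y)) := by
  obtain ⟨Kl, hKl0, hKl⟩ := lsum (a - m) (by linarith)
  refine ⟨1 + 4 * A + (4 * A) ^ 2 * C * Kl ^ 2, by positivity, ?_⟩
  intro N L _ c hN0 hcE i hcor x y
  have hc : ∀ e, 0 ≤ c e := fun e => (hcE e).1
  obtain ⟨T, hT⟩ : ∃ T : ℝ, T = Real.exp (-m * tnorm (x - y)) := ⟨_, rfl⟩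
  have hT0 : 0 < T := by rw [hT]; exact Real.exp_pos _
  rw [← hT]
  have hK1 : 0 ≤ 4 * A + (4 * A) ^ 2 * C * Kl ^ 2 := by positivity
  unfold Th
  split_ifs with hxy
  · subst hxy
    rw [hT, sub_self, tnorm_zero, mul_zero, Real.exp_zero, mul_one]
    linarith
  have hk : ∀ u w : Tor L, kap c u w ≤ 4 * A * Real.exp (-a * tnorm (w - u)) := by
    intro u w
    have h1 : c (u, w) ≤ A * Real.exp (-a * tnorm (w - u)) := (hcE (u, w)).2
    have h2 : c (w, u) ≤ A * Real.exp (-a * tnorm (u - w)) := (hcE (w, u)).2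
    rw [tnorm_sub_comm u w] at h2
    unfold kap
    linarith
  set g : Tor L → ℝ := fun z => Real.exp (-(a - m) * tnorm z) with hg
  have hg0 : ∀ z, 0 ≤ g z := fun z => (Real.exp_pos _).le
  have hgsum : ∑ z : Tor L, g z ≤ Kl := by
    refine (Finset.sum_le_sum fun z _ => ?_).trans (hKl L)
    simp only [hg]
    have h1 : (1 : ℝ) ≤ (1 + tnorm z) ^ 2 := by
      have := tnorm_nonneg z
      nlinarith
    have h2 := Real.exp_pos (-(a - m) * tnorm z)
    nlinarith
  have hgs : ∀ u : Tor L, ∑ w : Tor L, g (w - u) ≤ Kl := fun u => by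
    rw [AuxFin269.sum_shift g u]
    exact hgsum
  have hterm : ∀ w w' : Tor L, kap c x w * kap c y w' * corJ c i w w' ≤
      (4 * A) ^ 2 * C * T * (g (w - x) * g (w' - y)) := by
    intro w w'
    have h1 := hk x w
    have h2 := hk y w'
    have h3 := hcor w w'
    have h4 : kap c x w * kap c y w' ≤
        (4 * A * Real.exp (-a * tnorm (w - x))) * (4 * A * Real.exp (-a * tnorm (w' - y))) :=
      mul_le_mul h1 h2 (kap_nonneg hc y w') (by positivity)
    have h5 : kap c x w * kap c y w' * corJ c i w w' ≤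
        ((4 * A * Real.exp (-a * tnorm (w - x))) * (4 * A * Real.exp (-a * tnorm (w' - y)))) *
          (C * Real.exp (-m * tnorm (w - w'))) :=
      mul_le_mul h4 h3 (corJ_nonneg hN0 hc i w w') (by positivity)
    refine h5.trans ?_
    have h6 : Real.exp (-a * tnorm (w - x)) * Real.exp (-a * tnorm (w' - y)) *
        Real.exp (-m * tnorm (w - w')) ≤ T * (g (w - x) * g (w' - y)) := by
      simp only [hg]
      rw [hT, ← Real.exp_add, ← Real.exp_add, ← Real.exp_add, ← Real.exp_add]
      refine Real.exp_le_exp.2 ?_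
      have e1 := tnorm_add_le (x - w) (w - y)
      have e2 := tnorm_add_le (w - w') (w' - y)
      rw [sub_add_sub_cancel] at e1 e2
      rw [tnorm_sub_comm x w] at e1
      have n1 := tnorm_nonneg (w - x)
      have n2 := tnorm_nonneg (w' - y)
      have e3 : m * tnorm (x - y) ≤ m * (tnorm (w - x) + tnorm (w - w') + tnorm (w' - y)) :=
        mul_le_mul_of_nonneg_left (by linarith) hm
      nlinarith
    calc ((4 * A * Real.exp (-a * tnorm (w - x))) * (4 * A * Real.exp (-a * tnorm (w' - y)))) *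
          (C * Real.exp (-m * tnorm (w - w')))
        = (4 * A) ^ 2 * C * (Real.exp (-a * tnorm (w - x)) * Real.exp (-a * tnorm (w' - y)) *
          Real.exp (-m * tnorm (w - w'))) := by ring
      _ ≤ (4 * A) ^ 2 * C * (T * (g (w - x) * g (w' - y))) :=
          mul_le_mul_of_nonneg_left h6 (by positivity)
      _ = _ := by ring
  have h0 : kap c x y ≤ 4 * A * T := by
    refine (hk x y).trans (mul_le_mul_of_nonneg_left ?_ (by positivity))
    rw [hT, tnorm_sub_comm x y]
    refine Real.exp_le_exp.2 ?_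
    have n1 := tnorm_nonneg (y - x)
    nlinarith
  have hsum : ∑ w : Tor L, ∑ w' : Tor L, kap c x w * kap c y w' * corJ c i w w' ≤
      (4 * A) ^ 2 * C * T * (Kl * Kl) := by
    calc ∑ w : Tor L, ∑ w' : Tor L, kap c x w * kap c y w' * corJ c i w w'
        ≤ ∑ w : Tor L, ∑ w' : Tor L, (4 * A) ^ 2 * C * T * (g (w - x) * g (w' - y)) :=
          Finset.sum_le_sum fun w _ => Finset.sum_le_sum fun w' _ => hterm w w'
      _ = (4 * A) ^ 2 * C * T * ((∑ w : Tor L, g (w - x)) * ∑ w' : Tor L, g (w' - y)) := by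
          rw [Finset.sum_mul_sum, Finset.mul_sum]
          refine Finset.sum_congr rfl fun w _ => ?_
          rw [Finset.mul_sum]
      _ ≤ (4 * A) ^ 2 * C * T * (Kl * Kl) := by
          have h3 : 0 ≤ ∑ w' : Tor L, g (w' - y) := Finset.sum_nonneg fun w' _ => hg0 _
          exact mul_le_mul_of_nonneg_left (mul_le_mul (hgs x) (hgs y) h3 hKl0.le)
            (by positivity)
  nlinarith

end Pool.Agent.Q218.ON
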