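import Pool.Agent.Q218.ON.Rot

/-!
# Averaging over the orthogonal group
-/

set_option autoImplicit false

noncomputable section

namespace Pool.Agent.Q218.ON

open MeasureTheory Pool.Agent.H5R2.ON Pool.Agent.H717R2.ON3 Pool.Agent.H983R2.ONJ
open Pool.Agent.H983R2

instance continuousStarEN (N : ℕ) : ContinuousStar (EN N →L[ℝ] EN N) :=
  ⟨(ContinuousLinearMap.adjoint : (EN N →L[ℝ] EN N) ≃ₗᵢ⋆[ℝ] (EN N →L[ℝ] EN N)).continuous⟩

/-- the orthogonal group -/
abbrev OG (N : ℕ) : Type := unitary (EN N →L[ℝ] EN N)

theorem compactOG (N : ℕ) : CompactSpace (OG N) := by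
  haveI : ProperSpace (EN N →L[ℝ] EN N) := FiniteDimensional.proper ℝ _
  refine isCompact_iff_compactSpace.1 ?_
  refine Metric.isCompact_of_isClosed_isBounded isClosed_unitary ?_
  refine (Metric.isBounded_closedBall (x := (0 : EN N →L[ℝ] EN N)) (r := 1)).subset ?_
  intro U hU
  rw [mem_closedBall_zero_iff]
  refine ContinuousLinearMap.opNorm_le_bound _ zero_le_one fun x => ?_
  rw [one_mul]
  exact le_of_eq (U.norm_map_of_mem_unitary hU x)

/-- the Haar probability measure of the orthogonal group -/
def hm (N : ℕ) : Measure (OG N) :=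
  haveI := compactOG N
  Measure.haarMeasure ⊤

theorem hm_prob (N : ℕ) : IsProbabilityMeasure (hm N) := by
  haveI := compactOG N
  refine ⟨?_⟩
  have h := Measure.haarMeasure_self (K₀ := (⊤ : TopologicalSpace.PositiveCompacts (OG N)))
  unfold hm
  simpa using h

theorem hm_left (N : ℕ) : (hm N).IsMulLeftInvariant := by
  haveI := compactOG N
  unfold hm
  infer_instance

/-- the action of the inverse on the sphere -/
def act {N : ℕ} (U : OG N) (s : Sph N) : Sph N := rot (Unitary.linearIsometryEquiv U⁻¹) s

theorem act_mul {N : ℕ} (t U : OG N) (s : Sph N) :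
    act (t⁻¹ * U) s = act U (rot (Unitary.linearIsometryEquiv t) s) := by
  unfold act
  rw [mul_inv_rev, inv_inv, map_mul]
  rfl

theorem continuous_act {N : ℕ} : Continuous fun p : OG N × Sph N => act p.1 p.2 := by
  refine Continuous.subtype_mk ?_ _
  exact (continuous_subtype_val.comp (continuous_inv.comp continuous_fst)).clm_apply
    (continuous_subtype_val.comp continuous_snd)

theorem haar_avg {N : ℕ} (hN : N ≠ 0) {f : Sph N → ℝ} (hf : Measurable f)
    (hf1 : ∀ s, |f s| ≤ 1) (s : Sph N) :
    ∫ U, f (act U s) ∂(hm N) = ∫ s, f s ∂(unif N) := by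
  haveI := hm_prob N
  haveI := hm_left N
  haveI := unif_isProbabilityMeasure N hN
  have h1 : ∀ s' : Sph N, ∫ U, f (act U s') ∂(hm N) = ∫ U, f (act U s) ∂(hm N) := by
    intro s'
    have hn : ‖(s : EN N)‖ = ‖(s' : EN N)‖ := by simp
    set T : EN N ≃ₗᵢ[ℝ] EN N := Submodule.reflection (ℝ ∙ ((s : EN N) - s'))ᗮ with hT
    have hTs : T s = s' := Submodule.reflection_sub hn
    have hs' : rot T s = s' := by
      ext1
      rw [rot_coe, hTs]
    obtain ⟨t, ht⟩ : ∃ t : OG N, Unitary.linearIsometryEquiv t = T :=
      ⟨Unitary.linearIsometryEquiv.symm T, by simp⟩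
    have h2 := integral_mul_left_eq_self (μ := hm N) (fun U => f (act U s)) t⁻¹
    rw [← h2]
    refine integral_congr_ae (Filter.Eventually.of_forall fun U => ?_)
    simp only
    rw [act_mul, ht, hs']
  have hint : Integrable (Function.uncurry fun (s' : Sph N) (U : OG N) => f (act U s'))
      ((unif N).prod (hm N)) := by
    refine Integrable.of_bound (C := 1) ?_ (Filter.Eventually.of_forall fun p => ?_)
    · have h3 : Measurable fun p : Sph N × OG N => act p.2 p.1 :=
        (continuous_act.comp continuous_swap).measurable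
      exact (hf.comp h3).aestronglyMeasurable
    · rw [Real.norm_eq_abs]
      exact hf1 _
  have h2 : ∫ s', ∫ U, f (act U s') ∂(hm N) ∂(unif N) =
      ∫ U, ∫ s', f (act U s') ∂(unif N) ∂(hm N) := integral_integral_swap hint
  have h3 : ∀ U : OG N, ∫ s', f (act U s') ∂(unif N) = ∫ s', f s' ∂(unif N) := by
    intro U
    exact (mp_rot (Unitary.linearIsometryEquiv U⁻¹)).integral_comp
      (rot (Unitary.linearIsometryEquiv U⁻¹)).measurableEmbedding f
  simp only [h1, h3, integral_const, probReal_univ, one_smul] at h2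
  exact h2

theorem avg_one {N L : ℕ} [NeZero L] (hN : N ≠ 0) {f : Sph N → ℝ} (hf : Measurable f)
    (hf1 : ∀ s, |f s| ≤ 1) (x : Tor L) {h : Conf N L → ℝ} (hh : Measurable h) {B : ℝ}
    (hB : ∀ S, |h S| ≤ B) :
    ∫ U, (∫ S, f (act U (S x)) * h S ∂(prior N L)) ∂(hm N) =
      (∫ s, f s ∂(unif N)) * ∫ S, h S ∂(prior N L) := by
  haveI := hm_prob N
  haveI := prior_isProbabilityMeasure N L hN
  have hint : Integrable (Function.uncurry fun (U : OG N) (S : Conf N L) =>
      f (act U (S x)) * h S) ((hm N).prod (prior N L)) := by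
    refine Integrable.of_bound (C := 1 * B) ?_ (Filter.Eventually.of_forall fun p => ?_)
    · have h3 : Measurable fun p : OG N × Conf N L => act p.1 (p.2 x) :=
        (continuous_act.comp (continuous_fst.prodMk
          ((continuous_apply x).comp continuous_snd))).measurable
      exact ((hf.comp h3).mul (hh.comp measurable_snd)).aestronglyMeasurable
    · rw [Real.norm_eq_abs]
      simp only [Function.uncurry]
      rw [abs_mul]
      exact mul_le_mul (hf1 _) (hB _) (abs_nonneg _) zero_le_one
  rw [integral_integral_swap hint, ← integral_const_mul]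
  refine integral_congr_ae (Filter.Eventually.of_forall fun S => ?_)
  simp only
  rw [integral_mul_const, haar_avg hN hf hf1]

/-- one spin is uniformly distributed -/
theorem gib_one {N L : ℕ} [NeZero L] (hN : N ≠ 0) (c : Tor L × Tor L → ℝ) {f : Sph N → ℝ}
    (hf : Measurable f) (hf1 : ∀ s, |f s| ≤ 1) (x : Tor L) :
    gib c (fun S : Conf N L => f (S x)) = ∫ s, f s ∂(unif N) := by
  haveI := hm_prob N
  have hZ := Aux269.Z_pos (N := N) hN c
  have hc : Continuous fun S : Conf N L => Real.exp (pS c S) :=
    Real.continuous_exp.comp (continuous_pS c)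
  obtain ⟨B, hB⟩ := Aux269.bdd_of_continuous hc
  have h1 := avg_one hN hf hf1 x hc.measurable hB
  have h2 : ∀ U : OG N, ∫ S, f (act U (S x)) * Real.exp (pS c S) ∂(prior N L) =
      ∫ S, f (S x) * Real.exp (pS c S) ∂(prior N L) := fun U =>
    int_rotC hN c (Unitary.linearIsometryEquiv U⁻¹) (fun S => f (S x))
  simp only [h2, integral_const, probReal_univ, one_smul] at h1
  unfold gib
  rw [h1, mul_div_assoc, div_self hZ.ne', mul_one]

/-- **Decay of the correlations of arbitrary functions of two spins.** -/
theorem twoAll (N : ℕ) (hN : 3 ≤ N) (A a : ℝ) (hA : 0 ≤ A) (ha : 0 < a) :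
    ∃ C m : ℝ, 0 < C ∧ 0 < m ∧ ∀ (L : ℕ) [NeZero L] (c : Tor L × Tor L → ℝ), ExpC A a c →
      (∀ (X Y : Finset (Tor L)) (F G : Conf N L → ℝ), Measurable F → Measurable G →
      (∀ S, |F S| ≤ 1) → (∀ S, |G S| ≤ 1) → DependsOn F (X : Set (Tor L)) →
      DependsOn G (Y : Set (Tor L)) → ∀ Q : EN N ≃ₗᵢ[ℝ] EN N,
      |gib c (fun S => F (rotC Q S) * G S) - gib c (fun S => F S * G S)| ≤ C * ds m X Y) ∧
      (∀ (x y : Tor L) (f g : Sph N → ℝ), Measurable f → Measurable g →
      (∀ s, |f s| ≤ 1) → (∀ s, |g s| ≤ 1) →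
      |gib c (fun S : Conf N L => f (S x) * g (S y)) -
        (∫ s, f s ∂(unif N)) * ∫ s, g s ∂(unif N)| ≤ C * Real.exp (-m * tnorm (x - y))) := by
  obtain ⟨C, m, hC, hm0, h⟩ := rotAll N hN A a hA ha
  refine ⟨C, m, hC, hm0, fun L _ c hc => ⟨h L c hc, ?_⟩⟩
  intro x y f g hf hg hf1 hg1
  have hN0 : N ≠ 0 := by omega
  haveI := hm_prob N
  haveI := prior_isProbabilityMeasure N L hN0
  have hZ := Aux269.Z_pos (N := N) hN0 c
  set Z : ℝ := ∫ S : Conf N L, Real.exp (pS c S) ∂(prior N L) with hZdef
  have hcont : Continuous fun S : Conf N L => Real.exp (pS c S) :=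
    Real.continuous_exp.comp (continuous_pS c)
  obtain ⟨B, hB⟩ := Aux269.bdd_of_continuous hcont
  have hgm : Measurable fun S : Conf N L => g (S y) := hg.comp (measurable_pi_apply y)
  have hfm : Measurable fun S : Conf N L => f (S x) := hf.comp (measurable_pi_apply x)
  have hrot : ∀ U : OG N, |gib c (fun S : Conf N L => f (act U (S x)) * g (S y)) -
      gib c (fun S : Conf N L => f (S x) * g (S y))| ≤ C * Real.exp (-m * tnorm (x - y)) := by
    intro U
    have h1 := h L c hc {x} {y} (fun S => f (S x)) (fun S => g (S y)) hfm hgm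
      (fun S => hf1 _) (fun S => hg1 _)
      (fun S S' hS => by
        have := hS x (by simp)
        simp only [this])
      (fun S S' hS => by
        have := hS y (by simp)
        simp only [this]) (Unitary.linearIsometryEquiv U⁻¹)
    unfold ds at h1
    rw [Finset.sum_singleton, Finset.sum_singleton] at h1
    exact h1
  have havg : ∫ U, gib c (fun S : Conf N L => f (act U (S x)) * g (S y)) ∂(hm N) =
      (∫ s, f s ∂(unif N)) * ∫ s, g s ∂(unif N) := by
    have h1 := avg_one (L := L) hN0 hf hf1 x (h := fun S => g (S y) * Real.exp (pS c S))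
      (hgm.mul hcont.measurable) (B := 1 * B) (fun S => by
        rw [abs_mul]
        exact mul_le_mul (hg1 _) (hB S) (abs_nonneg _) zero_le_one)
    have h2 := gib_one hN0 c hg hg1 y
    unfold gib at h2 ⊢
    rw [integral_div]
    have h3 : ∀ (U : OG N), ∫ S : Conf N L, f (act U (S x)) * g (S y) * Real.exp (pS c S)
        ∂(prior N L) = ∫ S : Conf N L, f (act U (S x)) * (g (S y) * Real.exp (pS c S))
        ∂(prior N L) := by
      intro U
      refine integral_congr_ae (Filter.Eventually.of_forall fun S => ?_)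
      simp only
      ring
    simp only [h3]
    rw [h1, mul_div_assoc, h2]
  have hmeas : Integrable (fun U => gib c (fun S : Conf N L => f (act U (S x)) * g (S y)))
      (hm N) := by
    have hint : Integrable (Function.uncurry fun (U : OG N) (S : Conf N L) =>
        f (act U (S x)) * g (S y) * Real.exp (pS c S)) ((hm N).prod (prior N L)) := by
      refine Integrable.of_bound (C := 1 * 1 * B) ?_ (Filter.Eventually.of_forall fun p => ?_)
      · have h3 : Measurable fun p : OG N × Conf N L => act p.1 (p.2 x) :=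
          (continuous_act.comp (continuous_fst.prodMk
            ((continuous_apply x).comp continuous_snd))).measurable
        exact (((hf.comp h3).mul (hgm.comp measurable_snd)).mul
          (hcont.measurable.comp measurable_snd)).aestronglyMeasurable
      · rw [Real.norm_eq_abs]
        simp only [Function.uncurry]
        rw [abs_mul, abs_mul]
        exact mul_le_mul (mul_le_mul (hf1 _) (hg1 _) (abs_nonneg _) zero_le_one) (hB _)
          (abs_nonneg _) (by norm_num)
    have h4 := hint.integral_prod_left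
    exact h4.div_const _
  rw [← havg]
  have h5 : gib c (fun S : Conf N L => f (S x) * g (S y)) =
      ∫ _U : OG N, gib c (fun S : Conf N L => f (S x) * g (S y)) ∂(hm N) := by
    simp
  rw [h5, ← integral_sub (integrable_const _) hmeas]
  refine (abs_integral_le_integral_abs).trans ?_
  have h6 : ∫ U, |gib c (fun S : Conf N L => f (S x) * g (S y)) -
      gib c (fun S : Conf N L => f (act U (S x)) * g (S y))| ∂(hm N) ≤
      ∫ _U : OG N, C * Real.exp (-m * tnorm (x - y)) ∂(hm N) := by
    refine integral_mono ((integrable_const _).sub hmeas).abs (integrable_const _) fun U => ?_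
    simp only
    rw [abs_sub_comm]
    exact hrot U
  refine h6.trans (le_of_eq ?_)
  simp

end Pool.Agent.Q218.ON
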