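import Pool.Agent.Q218.ON.Vec

/-!
# Rotating the spins of a set
-/

set_option autoImplicit false

noncomputable section

namespace Pool.Agent.Q218.ON

open MeasureTheory Pool.Agent.H5R2.ON Pool.Agent.H717R2.ON3 Pool.Agent.H983R2.ONJ
open Pool.Agent.H983R2

/-- expectation in the Gibbs state on the torus with the couplings `c` (the coupling of the ordered
pair `(x, y)` is `c (x, y)`) -/
def gib {N L : ℕ} [NeZero L] (c : Tor L × Tor L → ℝ) (F : Conf N L → ℝ) : ℝ :=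
  (∫ S, F S * Real.exp (pS c S) ∂(prior N L)) / ∫ S : Conf N L, Real.exp (pS c S) ∂(prior N L)

/-- `∑_{x ∈ X, y ∈ Y} exp (-m |x - y|)` -/
def ds {L : ℕ} (m : ℝ) (X Y : Finset (Tor L)) : ℝ :=
  ∑ x ∈ X, ∑ y ∈ Y, Real.exp (-m * tnorm (x - y))

theorem ds_nonneg {L : ℕ} (m : ℝ) (X Y : Finset (Tor L)) : 0 ≤ ds m X Y :=
  Finset.sum_nonneg fun _ _ => Finset.sum_nonneg fun _ _ => (Real.exp_pos _).le

/-- the statement for one reflection -/
def OneRef (N : ℕ) (A a C m : ℝ) : Prop :=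
  ∀ (L : ℕ) [NeZero L] (c : Tor L × Tor L → ℝ), ExpC A a c →
    ∀ (X Y : Finset (Tor L)) (F G : Conf N L → ℝ), Measurable F → Measurable G →
      (∀ S, |F S| ≤ 1) → (∀ S, |G S| ≤ 1) → DependsOn F (X : Set (Tor L)) →
      DependsOn G (Y : Set (Tor L)) → ∀ v : EN N,
      |gib c (fun S => F (rotC (rho v) S) * G S) - gib c (fun S => F S * G S)| ≤
        C * ds m X Y

theorem rho_zero {N : ℕ} (s : EN N) : rho (0 : EN N) s = s := by
  unfold rho
  refine Submodule.reflection_mem_subspace_eq_self ?_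
  simp

theorem rotC_rho_zero {N L : ℕ} (S : Conf N L) : rotC (rho (0 : EN N)) S = S := by
  funext x
  unfold rotC
  ext1
  rw [rot_coe, rho_zero]

theorem rho_smul {N : ℕ} {v : EN N} (hv : v ≠ 0) : rho v = rho (‖v‖⁻¹ • v) := by
  unfold rho
  have h : IsUnit (‖v‖⁻¹ : ℝ) := (inv_ne_zero (norm_ne_zero_iff.2 hv)).isUnit
  have h2 := Submodule.span_singleton_smul_eq (R := ℝ) h v
  simp only [h2]

theorem oneRef (N : ℕ) (hN : 3 ≤ N) (A a : ℝ) (hA : 0 ≤ A) (ha : 0 < a) :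
    ∃ C m : ℝ, 0 < C ∧ 0 < m ∧ OneRef N A a C m := by
  obtain ⟨C, m, hC, hm, h⟩ := conn_decay N hN A a hA ha
  have hN0 : N ≠ 0 := by omega
  refine ⟨2 * C, m, by positivity, hm, ?_⟩
  intro L _ c hcE X Y F G hF hG hF1 hG1 hFX hGY v
  have hc : ∀ e, 0 ≤ c e := fun e => (hcE e).1
  by_cases hv0 : v = 0
  · subst hv0
    simp only [rotC_rho_zero, sub_self, abs_zero]
    exact mul_nonneg (by positivity) (ds_nonneg _ _ _)
  rw [rho_smul hv0]
  obtain ⟨u, hu⟩ : ∃ u : EN N, u = ‖v‖⁻¹ • v := ⟨_, rfl⟩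
  have hu1 : ‖u‖ = 1 := by
    rw [hu, norm_smul, norm_inv, norm_norm, inv_mul_cancel₀ (norm_ne_zero_iff.2 hv0)]
  rw [← hu]
  set D := sysV hN0 hc hu1 with hD
  have hZ := Aux269.Z_pos (N := N) hN0 c
  have hBF : FK.Sys.BM F := ⟨hF, 1, hF1⟩
  have hBG : FK.Sys.BM G := ⟨hG, 1, hG1⟩
  have hdec := decouple D X Y hBF hBG hF1 hG1
    (fun s s' hs => hFX fun x hx => hs x hx) (fun s s' hs => hGY fun x hx => hs x hx)
  have hflip : ∀ S : Conf N L, F (D.flip X S) = F (rotC (rho u) S) := by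
    intro S
    refine hFX fun x hx => ?_
    have hx' : x ∈ X := hx
    unfold FK.Sys.flip rotC
    rw [if_pos hx']
    rfl
  simp only [hflip] at hdec
  rw [hD, IV_eq, IV_eq, ← hD] at hdec
  unfold gib
  rw [← sub_div, abs_div, abs_of_pos hZ, div_le_iff₀ hZ]
  refine hdec.trans ?_
  have h3 : ∑ x ∈ X, ∑ y ∈ Y, Ga D (fun _ => 1) x y ≤
      C * ds m X Y * ∫ S : Conf N L, Real.exp (pS c S) ∂(prior N L) := by
    unfold ds
    rw [Finset.mul_sum, Finset.sum_mul]
    refine Finset.sum_le_sum fun x _ => ?_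
    rw [Finset.mul_sum, Finset.sum_mul]
    exact Finset.sum_le_sum fun y _ => h L c hc hcE hN0 u hu1 x y
  linarith

theorem rotC_mul {N L : ℕ} (P Q : EN N ≃ₗᵢ[ℝ] EN N) (S : Conf N L) :
    rotC (P * Q) S = rotC P (rotC Q S) := by
  funext x
  rfl

theorem rotC_one {N L : ℕ} (S : Conf N L) : rotC (1 : EN N ≃ₗᵢ[ℝ] EN N) S = S := by
  funext x
  rfl

theorem listRot {N : ℕ} {A a C m : ℝ} (hR : OneRef N A a C m) (L : ℕ) [NeZero L]
    (c : Tor L × Tor L → ℝ) (hc : ExpC A a c) (X Y : Finset (Tor L)) (G : Conf N L → ℝ)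
    (hG : Measurable G) (hG1 : ∀ S, |G S| ≤ 1) (hGY : DependsOn G (Y : Set (Tor L))) :
    ∀ (l : List (EN N)) (F : Conf N L → ℝ), Measurable F → (∀ S, |F S| ≤ 1) →
      DependsOn F (X : Set (Tor L)) →
      |gib c (fun S => F (rotC (l.map rho).prod S) * G S) - gib c (fun S => F S * G S)| ≤
        l.length * (C * ds m X Y) := by
  intro l
  induction l with
  | nil =>
    intro F _ _ _
    simp [rotC_one]
  | cons v l ih =>
    intro F hF hF1 hFX
    have hF' : Measurable fun S => F (rotC (rho v) S) := hF.comp (meas_rotC _)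
    have h1 := ih (fun S => F (rotC (rho v) S)) hF' (fun S => hF1 _) (fun S S' hS => by
      refine hFX fun x hx => ?_
      unfold rotC
      rw [hS x hx])
    have h2 := hR L c hc X Y F G hF hG hF1 hG1 hFX hGY v
    have h3 : ∀ S : Conf N L, rotC ((v :: l).map rho).prod S =
        rotC (rho v) (rotC (l.map rho).prod S) := by
      intro S
      rw [List.map_cons, List.prod_cons, rotC_mul]
    simp only [h3]
    have h4 : ((v :: l).length : ℝ) * (C * ds m X Y) =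
        l.length * (C * ds m X Y) + C * ds m X Y := by
      rw [List.length_cons]
      push_cast
      ring
    rw [h4]
    exact (abs_sub_le _ _ _).trans (add_le_add h1 h2)

/-- **Rotating the spins of one set.** -/
theorem rotAll (N : ℕ) (hN : 3 ≤ N) (A a : ℝ) (hA : 0 ≤ A) (ha : 0 < a) :
    ∃ C m : ℝ, 0 < C ∧ 0 < m ∧ ∀ (L : ℕ) [NeZero L] (c : Tor L × Tor L → ℝ), ExpC A a c →
      ∀ (X Y : Finset (Tor L)) (F G : Conf N L → ℝ), Measurable F → Measurable G →
      (∀ S, |F S| ≤ 1) → (∀ S, |G S| ≤ 1) → DependsOn F (X : Set (Tor L)) →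
      DependsOn G (Y : Set (Tor L)) → ∀ Q : EN N ≃ₗᵢ[ℝ] EN N,
      |gib c (fun S => F (rotC Q S) * G S) - gib c (fun S => F S * G S)| ≤ C * ds m X Y := by
  obtain ⟨C, m, hC, hm, h⟩ := oneRef N hN A a hA ha
  refine ⟨N * C, m, by positivity, hm, ?_⟩
  intro L _ c hc X Y F G hF hG hF1 hG1 hFX hGY Q
  obtain ⟨l, hl, hQ⟩ := LinearIsometryEquiv.reflections_generate_dim Q
  have h1 := listRot h L c hc X Y G hG hG1 hGY l F hF hF1 hFX
  have h2 : Q = (l.map rho).prod := hQ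
  rw [h2]
  refine h1.trans ?_
  rw [finrank_euclideanSpace_fin] at hl
  have h3 : (l.length : ℝ) ≤ N := by exact_mod_cast hl
  have h4 : 0 ≤ C * ds m X Y := mul_nonneg hC.le (ds_nonneg _ _ _)
  rw [mul_assoc]
  exact mul_le_mul_of_nonneg_right h3 h4

end Pool.Agent.Q218.ON
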