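import Pool.Agent.Q218.ON.Conn
import Pool.Agent.H983R2.ONJ.Fin
import Pool.Agent.H983R2.ONJ.GeoA

/-!
# The reflections in all directions and the connection probabilities on the tori
-/

set_option autoImplicit false

noncomputable section

namespace Pool.Agent.Q218.ON

open MeasureTheory Pool.Agent.H5R2.ON Pool.Agent.H717R2.ON3 Pool.Agent.H983R2.ONJ
open Pool.Agent.H983R2

/-- `ℝ^N` -/
abbrev EN (N : ℕ) : Type := EuclideanSpace ℝ (Fin N)

/-- an orthogonal transformation acting on the sphere -/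
def rot {N : ℕ} (Q : EN N ≃ₗᵢ[ℝ] EN N) : Sph N ≃ₜ Sph N where
  toFun s := ⟨Q s, by simp⟩
  invFun s := ⟨Q.symm s, by simp⟩
  left_inv s := by ext1; simp
  right_inv s := by ext1; simp
  continuous_toFun := by fun_prop
  continuous_invFun := by fun_prop

theorem rot_coe {N : ℕ} (Q : EN N ≃ₗᵢ[ℝ] EN N) (s : Sph N) : (rot Q s : EN N) = Q s := rfl

theorem mp_rot {N : ℕ} (Q : EN N ≃ₗᵢ[ℝ] EN N) : MeasurePreserving (rot Q) (unif N) (unif N) :=
  ⟨(rot Q).continuous.measurable, map_unif N Q (rot Q) fun _ => rfl⟩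

/-- an orthogonal transformation acting on the configurations -/
def rotC {N L : ℕ} (Q : EN N ≃ₗᵢ[ℝ] EN N) (S : Conf N L) : Conf N L := fun x => rot Q (S x)

theorem meas_rotC {N L : ℕ} (Q : EN N ≃ₗᵢ[ℝ] EN N) : Measurable (rotC Q : Conf N L → Conf N L) :=
  measurable_pi_lambda _ fun x => (rot Q).continuous.measurable.comp (measurable_pi_apply x)

theorem mp_rotC {N L : ℕ} [NeZero L] (hN : N ≠ 0) (Q : EN N ≃ₗᵢ[ℝ] EN N) :
    MeasurePreserving (rotC Q : Conf N L → Conf N L) (prior N L) (prior N L) := by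
  haveI := unif_isProbabilityMeasure N hN
  exact measurePreserving_pi (fun _ : Tor L => unif N) (fun _ : Tor L => unif N)
    (f := fun _ => rot Q) fun _ => mp_rot Q

theorem pS_rotC {N L : ℕ} [NeZero L] (c : Tor L × Tor L → ℝ) (Q : EN N ≃ₗᵢ[ℝ] EN N)
    (S : Conf N L) : pS c (rotC Q S) = pS c S := by
  unfold pS rotC
  refine Finset.sum_congr rfl fun e _ => ?_
  rw [rot_coe, rot_coe, Q.inner_map_map]

theorem emb_rotC {N L : ℕ} [NeZero L] (Q : EN N ≃ₗᵢ[ℝ] EN N) :
    MeasurableEmbedding (rotC Q : Conf N L → Conf N L) :=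
  (Homeomorph.piCongrRight fun _ : Tor L => rot Q).measurableEmbedding

/-- invariance of the Gibbs state -/
theorem int_rotC {N L : ℕ} [NeZero L] (hN : N ≠ 0) (c : Tor L × Tor L → ℝ)
    (Q : EN N ≃ₗᵢ[ℝ] EN N) (F : Conf N L → ℝ) :
    ∫ S, F (rotC Q S) * Real.exp (pS c S) ∂(prior N L) =
      ∫ S, F S * Real.exp (pS c S) ∂(prior N L) := by
  have h := (mp_rotC (L := L) hN Q).integral_comp (emb_rotC Q)
    (fun S => F S * Real.exp (pS c S))
  rw [← h]
  refine integral_congr_ae (Filter.Eventually.of_forall fun S => ?_)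
  simp only
  rw [pS_rotC]

/-- the component in the direction `v` -/
def ax {N : ℕ} (v : EN N) (s : Sph N) : ℝ := inner ℝ v (s : EN N)

theorem continuous_ax {N : ℕ} (v : EN N) : Continuous (ax v) := by
  unfold ax
  fun_prop

/-- the reflection which changes the sign of `v` -/
def rho {N : ℕ} (v : EN N) : EN N ≃ₗᵢ[ℝ] EN N := Submodule.reflection (ℝ ∙ v)ᗮ

theorem rho_apply {N : ℕ} {v : EN N} (hv : ‖v‖ = 1) (s : EN N) :
    rho v s = s - (2 * inner ℝ v s) • v := by
  unfold rho
  rw [Submodule.reflection_orthogonal_apply, Submodule.reflection_singleton_apply]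
  rw [hv]
  simp only [RCLike.ofReal_one, one_pow, div_one]
  rw [two_smul, mul_smul, two_smul]
  abel

theorem inner_self_one' {N : ℕ} {v : EN N} (hv : ‖v‖ = 1) : inner ℝ v v = (1 : ℝ) := by
  rw [real_inner_self_eq_norm_sq, hv, one_pow]

theorem ax_rho {N : ℕ} {v : EN N} (hv : ‖v‖ = 1) (s : Sph N) : ax v (rot (rho v) s) = -ax v s := by
  unfold ax
  rw [rot_coe, rho_apply hv, inner_sub_right, inner_smul_right, inner_self_one' hv]
  ring

theorem abs_ax_le {N : ℕ} {v : EN N} (hv : ‖v‖ = 1) (s : Sph N) : |ax v s| ≤ 1 := by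
  unfold ax
  have h1 : ‖(s : EN N)‖ = 1 := by simp
  refine (abs_real_inner_le_norm _ _).trans ?_
  rw [hv, h1, one_mul]

/-- scalar product of the other components -/
def qv {N : ℕ} (v : EN N) (s t : Sph N) : ℝ := inner ℝ (s : EN N) (t : EN N) - ax v s * ax v t

theorem qv_comm {N : ℕ} (v : EN N) (s t : Sph N) : qv v s t = qv v t s := by
  unfold qv
  rw [real_inner_comm, mul_comm]

theorem qv_rho_left {N : ℕ} {v : EN N} (hv : ‖v‖ = 1) (s t : Sph N) :
    qv v (rot (rho v) s) t = qv v s t := by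
  unfold qv
  rw [ax_rho hv, rot_coe, rho_apply hv, inner_sub_left, inner_smul_left]
  unfold ax
  simp only [conj_trivial]
  ring

theorem qv_rho_right {N : ℕ} {v : EN N} (hv : ‖v‖ = 1) (s t : Sph N) :
    qv v s (rot (rho v) t) = qv v s t := by
  rw [qv_comm, qv_rho_left hv, qv_comm]

theorem qv_ref {N : ℕ} {v : EN N} (hv : ‖v‖ = 1) (P Q : Prop) [Decidable P] [Decidable Q]
    (s t : Sph N) :
    qv v (if P then rot (rho v) s else s) (if Q then rot (rho v) t else t) = qv v s t := by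
  split_ifs
  · rw [qv_rho_left hv, qv_rho_right hv]
  · rw [qv_rho_left hv]
  · rw [qv_rho_right hv]
  · rfl

/-- the weight of the other components -/
def wv {N L : ℕ} [NeZero L] (c : Tor L × Tor L → ℝ) (v : EN N) (S : Conf N L) : ℝ :=
  Real.exp (∑ e, c e * qv v (S e.1) (S e.2))

theorem continuous_wv {N L : ℕ} [NeZero L] (c : Tor L × Tor L → ℝ) (v : EN N) :
    Continuous (wv c v : Conf N L → ℝ) := by
  have h : ∀ x y : Tor L, Continuous fun S : Conf N L => qv v (S x) (S y) := by
    intro x y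
    unfold qv
    refine Continuous.sub ?_ ?_
    · exact Continuous.inner (continuous_subtype_val.comp (continuous_apply x))
        (continuous_subtype_val.comp (continuous_apply y))
    · exact ((continuous_ax v).comp (continuous_apply x)).mul
        ((continuous_ax v).comp (continuous_apply y))
  unfold wv
  refine Real.continuous_exp.comp ?_
  exact continuous_finsetSum _ fun e _ => continuous_const.mul (h _ _)

/-- the ferromagnetic system of the direction `v` -/
def sysV {N L : ℕ} [NeZero L] (hN : N ≠ 0) {c : Tor L × Tor L → ℝ}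
    (hc : ∀ e, 0 ≤ c e) {v : EN N} (hv : ‖v‖ = 1) : FK.Sys (Tor L) (Sph N) where
  ν := unif N
  prob := unif_isProbabilityMeasure N hN
  τ := rot (rho v)
  mp := mp_rot (rho v)
  a := ax v
  ma := (continuous_ax v).measurable
  a1 := abs_ax_le hv
  odd := ax_rho hv
  k := c
  k0 := hc
  g := wv c v
  mg := (continuous_wv c v).measurable
  g0 := fun s => (Real.exp_pos _).le
  gb := by
    obtain ⟨C, hC⟩ := Aux269.bdd_of_continuous (continuous_wv (L := L) c v)
    exact ⟨C, fun s => (le_abs_self _).trans (hC s)⟩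
  gflip := by
    intro C s
    unfold wv
    congr 1
    refine Finset.sum_congr rfl fun e _ => ?_
    rw [qv_ref hv]

theorem wtV_eq {N L : ℕ} [NeZero L] (hN : N ≠ 0) {c : Tor L × Tor L → ℝ}
    (hc : ∀ e, 0 ≤ c e) {v : EN N} (hv : ‖v‖ = 1) (S : Conf N L) :
    (sysV hN hc hv).wt S = Real.exp (pS c S) := by
  unfold FK.Sys.wt FK.Sys.x sysV wv pS qv
  simp only
  rw [← Real.exp_add, ← Finset.sum_add_distrib]
  congr 1
  refine Finset.sum_congr rfl fun e _ => ?_
  ring

theorem IV_eq {N L : ℕ} [NeZero L] (hN : N ≠ 0) {c : Tor L × Tor L → ℝ}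
    (hc : ∀ e, 0 ≤ c e) {v : EN N} (hv : ‖v‖ = 1) (F : Conf N L → ℝ) :
    (sysV hN hc hv).I F = ∫ S, F S * Real.exp (pS c S) ∂(prior N L) := by
  unfold FK.Sys.I
  have h : (sysV hN hc hv).π = prior N L := rfl
  rw [h]
  refine integral_congr_ae (Filter.Eventually.of_forall fun S => ?_)
  simp only
  rw [wtV_eq]

/-- the two point functions of all directions agree -/
theorem two_dir {N L : ℕ} [NeZero L] (hN : N ≠ 0) (c : Tor L × Tor L → ℝ)
    {v : EN N} (hv : ‖v‖ = 1) (i : Fin N) (x y : Tor L) :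
    ∫ S : Conf N L, ax v (S x) * ax v (S y) * Real.exp (pS c S) ∂(prior N L) =
      corJ c i x y * ∫ S : Conf N L, Real.exp (pS c S) ∂(prior N L) := by
  have hZ := Aux269.Z_pos (N := N) hN c
  unfold corJ
  rw [div_mul_cancel₀ _ hZ.ne']
  have he : ‖(EuclideanSpace.single i (1 : ℝ) : EN N)‖ = 1 := by simp
  set Q : EN N ≃ₗᵢ[ℝ] EN N := Submodule.reflection (ℝ ∙ (v - EuclideanSpace.single i (1 : ℝ)))ᗮ
    with hQ
  have hQv : Q v = EuclideanSpace.single i (1 : ℝ) :=
    Submodule.reflection_sub (by rw [hv, he])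
  have h1 : ∀ s : Sph N, ax v s = cc i (rot Q s) := by
    intro s
    unfold ax cc
    rw [← Q.inner_map_map, hQv, rot_coe, EuclideanSpace.inner_single_left]
    simp
  simp only [h1]
  exact int_rotC hN c Q (fun S => cc i (S x) * cc i (S y))

/-- connection probabilities decay exponentially, in all directions -/
theorem conn_decay (N : ℕ) (hN : 3 ≤ N) (A a : ℝ) (hA : 0 ≤ A) (ha : 0 < a) :
    ∃ C m : ℝ, 0 < C ∧ 0 < m ∧ ∀ (L : ℕ) [NeZero L] (c : Tor L × Tor L → ℝ)
      (hc : ∀ e, 0 ≤ c e), ExpC A a c → ∀ (hN0 : N ≠ 0) (v : EN N) (hv : ‖v‖ = 1) (x y : Tor L),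
      Ga (sysV hN0 hc hv) (fun _ => 1) x y ≤ C * Real.exp (-m * tnorm (x - y)) *
        ∫ S : Conf N L, Real.exp (pS c S) ∂(prior N L) := by
  obtain ⟨C, b, hC, hb, hcor⟩ := corJ_decay N hN A a hA ha
  obtain ⟨Kl, hKl0, hKl⟩ := lsum (a / 4) (by positivity)
  obtain ⟨m, hm⟩ : ∃ m : ℝ, m = min (a / 2) b := ⟨_, rfl⟩
  have hm0 : 0 < m := by rw [hm]; exact lt_min (by positivity) hb
  have hma : m ≤ a / 2 := by rw [hm]; exact min_le_left _ _
  have hmb : m ≤ b := by rw [hm]; exact min_le_right _ _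
  refine ⟨1 + 4 * A + (4 * A) ^ 2 * C * Kl ^ 2, m, by positivity, hm0, ?_⟩
  intro L _ c hc hcE hN0 v hv x y
  set Z : ℝ := ∫ S : Conf N L, Real.exp (pS c S) ∂(prior N L) with hZdef
  have hZ : 0 < Z := Aux269.Z_pos (N := N) hN0 c
  set D := sysV hN0 hc hv with hD
  have hI1 : D.I (fun _ => 1) = Z := by
    rw [hD, IV_eq]
    simp only [one_mul]
    rfl
  have hone : FK.Sys.BM (fun _ : Conf N L => (1 : ℝ)) :=
    ⟨measurable_const, 1, fun s => by simp⟩
  by_cases hxy : x = y
  · subst hxy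
    refine (Ga_le D hone (fun _ => zero_le_one) x x).trans ?_
    rw [hI1, sub_self, tnorm_zero, mul_zero, Real.exp_zero, mul_one]
    refine le_mul_of_one_le_left hZ.le ?_
    have : 0 ≤ (4 * A) ^ 2 * C * Kl ^ 2 := by positivity
    linarith
  have hN1 : 0 < N := by omega
  set i : Fin N := ⟨0, hN1⟩
  have htwo : ∀ w w' : Tor L, D.I (fun s => D.a (s w') * D.a (s w)) ≤
      C * Real.exp (-b * tnorm (w' - w)) * Z := by
    intro w w'
    have h1 : D.I (fun s => D.a (s w') * D.a (s w)) = corJ c i w' w * Z := by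
      rw [hD, IV_eq]
      exact two_dir hN0 c hv i w' w
    rw [h1]
    exact mul_le_mul_of_nonneg_right (hcor L c hcE i w' w) hZ.le
  have hk : ∀ u w : Tor L, 2 * (D.k (u, w) + D.k (w, u)) ≤
      4 * A * Real.exp (-a * tnorm (w - u)) := by
    intro u w
    have h1 : c (u, w) ≤ A * Real.exp (-a * tnorm (w - u)) := (hcE (u, w)).2
    have h2 : c (w, u) ≤ A * Real.exp (-a * tnorm (u - w)) := (hcE (w, u)).2
    rw [tnorm_sub_comm u w] at h2
    have h3 : D.k = c := rfl
    rw [h3]
    linarith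
  have hk0 : ∀ u w : Tor L, 0 ≤ 2 * (D.k (u, w) + D.k (w, u)) := fun u w =>
    mul_nonneg (by norm_num) (add_nonneg (D.k0 _) (D.k0 _))
  set g : Tor L → ℝ := fun z => Real.exp (-(a / 4) * tnorm z) with hg
  have hg0 : ∀ z, 0 ≤ g z := fun z => (Real.exp_pos _).le
  have hgsum : ∑ z : Tor L, g z ≤ Kl := by
    refine (Finset.sum_le_sum fun z _ => ?_).trans (hKl L)
    simp only [hg]
    have h1 : (1 : ℝ) ≤ (1 + tnorm z) ^ 2 := by
      have := tnorm_nonneg z
      nlinarith
    have h2 := Real.exp_pos (-(a / 4) * tnorm z)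
    nlinarith
  have hgs : ∀ u : Tor L, ∑ w : Tor L, g (w - u) ≤ Kl := fun u => by
    rw [AuxFin269.sum_shift g u]
    exact hgsum
  obtain ⟨T, hT⟩ : ∃ T : ℝ, T = Real.exp (-m * tnorm (x - y)) := ⟨_, rfl⟩
  have hT0 : 0 < T := by rw [hT]; exact Real.exp_pos _
  -- the main double sum
  have hterm : ∀ w w' : Tor L, 2 * (D.k (x, w) + D.k (w, x)) *
      (2 * (D.k (y, w') + D.k (w', y)) * D.I (fun s => D.a (s w') * D.a (s w))) ≤
      (4 * A) ^ 2 * C * T * Z * (g (w - x) * g (w' - y)) := by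
    intro w w'
    have h1 := hk x w
    have h2 := hk y w'
    have h3 := htwo w w'
    have h4 : 2 * (D.k (y, w') + D.k (w', y)) * D.I (fun s => D.a (s w') * D.a (s w)) ≤
        (4 * A * Real.exp (-a * tnorm (w' - y))) * (C * Real.exp (-b * tnorm (w' - w)) * Z) :=
      (mul_le_mul_of_nonneg_left h3 (hk0 y w')).trans
        (mul_le_mul_of_nonneg_right h2 (by positivity))
    have h5 : 2 * (D.k (x, w) + D.k (w, x)) *
        (2 * (D.k (y, w') + D.k (w', y)) * D.I (fun s => D.a (s w') * D.a (s w))) ≤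
        (4 * A * Real.exp (-a * tnorm (w - x))) * ((4 * A * Real.exp (-a * tnorm (w' - y))) *
          (C * Real.exp (-b * tnorm (w' - w)) * Z)) :=
      (mul_le_mul_of_nonneg_left h4 (hk0 x w)).trans
        (mul_le_mul_of_nonneg_right h1 (by positivity))
    refine h5.trans ?_
    have h6 : Real.exp (-a * tnorm (w - x)) * Real.exp (-a * tnorm (w' - y)) *
        Real.exp (-b * tnorm (w' - w)) ≤ T * (g (w - x) * g (w' - y)) := by
      simp only [hg]
      rw [hT, ← Real.exp_add, ← Real.exp_add, ← Real.exp_add, ← Real.exp_add]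
      refine Real.exp_le_exp.2 ?_
      have e1 := tnorm_add_le (x - w) (w - y)
      have e2 := tnorm_add_le (w - w') (w' - y)
      rw [sub_add_sub_cancel] at e1 e2
      rw [tnorm_sub_comm x w] at e1
      rw [tnorm_sub_comm w w'] at e2
      have n1 := tnorm_nonneg (w - x)
      have n2 := tnorm_nonneg (w' - y)
      have n3 := tnorm_nonneg (w' - w)
      have e3 : m * tnorm (x - y) ≤ m * (tnorm (w - x) + tnorm (w' - w) + tnorm (w' - y)) :=
        mul_le_mul_of_nonneg_left (by linarith) hm0.le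
      have e4 : m * tnorm (w' - w) ≤ b * tnorm (w' - w) := mul_le_mul_of_nonneg_right hmb n3
      have e5 : m * tnorm (w - x) ≤ a / 2 * tnorm (w - x) := mul_le_mul_of_nonneg_right hma n1
      have e6 : m * tnorm (w' - y) ≤ a / 2 * tnorm (w' - y) := mul_le_mul_of_nonneg_right hma n2
      nlinarith
    calc (4 * A * Real.exp (-a * tnorm (w - x))) * ((4 * A * Real.exp (-a * tnorm (w' - y))) *
          (C * Real.exp (-b * tnorm (w' - w)) * Z))
        = (4 * A) ^ 2 * C * Z * (Real.exp (-a * tnorm (w - x)) * Real.exp (-a * tnorm (w' - y)) *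
          Real.exp (-b * tnorm (w' - w))) := by ring
      _ ≤ (4 * A) ^ 2 * C * Z * (T * (g (w - x) * g (w' - y))) :=
          mul_le_mul_of_nonneg_left h6 (by positivity)
      _ = _ := by ring
  have hfirst : ∀ w : Tor L, 2 * (D.k (x, w) + D.k (w, x)) *
      (if w = y then D.I (fun _ => 1) else 0) ≤ if w = y then 4 * A * T * Z else 0 := by
    intro w
    split_ifs with h
    · subst h
      rw [hI1]
      have h1 := hk x w
      have h2 : Real.exp (-a * tnorm (w - x)) ≤ T := by
        rw [hT]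
        refine Real.exp_le_exp.2 ?_
        rw [tnorm_sub_comm x w]
        have n1 := tnorm_nonneg (w - x)
        nlinarith
      refine mul_le_mul_of_nonneg_right (h1.trans ?_) hZ.le
      exact mul_le_mul_of_nonneg_left h2 (by positivity)
    · rw [mul_zero]
  have hIn : ∀ w w' : Tor L, 0 ≤ D.I (fun s => D.a (s w') * D.a (s w)) := by
    intro w w'
    have h1 : D.I (fun s => D.a (s w') * D.a (s w)) = corJ c i w' w * Z := by
      rw [hD, IV_eq]
      exact two_dir hN0 c hv i w' w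
    rw [h1]
    exact mul_nonneg (corJ_nonneg hN0 hc i w' w) hZ.le
  calc Ga D (fun _ => 1) x y
      ≤ ∑ w ∈ ({x} : Finset (Tor L))ᶜ, 2 * (D.k (x, w) + D.k (w, x)) *
        ((if w = y then D.I (fun _ => 1) else 0) +
        ∑ w' ∈ ({y} : Finset (Tor L))ᶜ, 2 * (D.k (y, w') + D.k (w', y)) *
          D.I (fun s => D.a (s w') * D.a (s w))) := Ga_one D hxy
    _ ≤ ∑ w : Tor L, 2 * (D.k (x, w) + D.k (w, x)) *
        ((if w = y then D.I (fun _ => 1) else 0) +
        ∑ w' : Tor L, 2 * (D.k (y, w') + D.k (w', y)) *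
          D.I (fun s => D.a (s w') * D.a (s w))) := by
        refine (Finset.sum_le_sum fun w _ => mul_le_mul_of_nonneg_left
          (add_le_add le_rfl (Finset.sum_le_univ_sum_of_nonneg fun w' =>
            mul_nonneg (hk0 y w') (hIn w w'))) (hk0 x w)).trans ?_
        refine Finset.sum_le_univ_sum_of_nonneg fun w => mul_nonneg (hk0 x w) (add_nonneg ?_
          (Finset.sum_nonneg fun w' _ => mul_nonneg (hk0 y w') (hIn w w')))
        split_ifs
        · rw [hI1]; exact hZ.le
        · exact le_rfl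
    _ ≤ ∑ w : Tor L, ((if w = y then 4 * A * T * Z else 0) +
        ∑ w' : Tor L, (4 * A) ^ 2 * C * T * Z * (g (w - x) * g (w' - y))) := by
        refine Finset.sum_le_sum fun w _ => ?_
        rw [mul_add, Finset.mul_sum]
        exact add_le_add (hfirst w) (Finset.sum_le_sum fun w' _ => hterm w w')
    _ = 4 * A * T * Z + (4 * A) ^ 2 * C * T * Z *
        ((∑ w : Tor L, g (w - x)) * ∑ w' : Tor L, g (w' - y)) := by
        rw [Finset.sum_add_distrib, Finset.sum_ite_eq' Finset.univ y, if_pos (Finset.mem_univ y),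
          Finset.sum_mul_sum, Finset.mul_sum]
        congr 1
        refine Finset.sum_congr rfl fun w _ => ?_
        rw [Finset.mul_sum]
    _ ≤ 4 * A * T * Z + (4 * A) ^ 2 * C * T * Z * (Kl * Kl) := by
        have h1 := hgs x
        have h2 := hgs y
        have h3 : 0 ≤ ∑ w' : Tor L, g (w' - y) := Finset.sum_nonneg fun w' _ => hg0 _
        have h4 := mul_le_mul h1 h2 h3 hKl0.le
        have h5 : 0 ≤ (4 * A) ^ 2 * C * T * Z := by positivity
        exact add_le_add le_rfl (mul_le_mul_of_nonneg_left h4 h5)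
    _ ≤ (1 + 4 * A + (4 * A) ^ 2 * C * Kl ^ 2) * T * Z := by
        have h5 : 0 ≤ T * Z := by positivity
        nlinarith
    _ = _ := by rw [hT]

end Pool.Agent.Q218.ON
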