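import Pool.Agent.Q218.ON.Gen
import Pool.Agent.H993R2.ONJ.Step
import Pool.Agent.H965R2.ON3.Gib2

/-!
# Constant boundary conditions: the wired model
-/

set_option autoImplicit false

noncomputable section

namespace Pool.Agent.Q218.ON

open MeasureTheory Pool.Agent.H5R2.ON Pool.Agent.H717R2.ON3 Pool.Agent.H983R2.ONJ
open Pool.Agent.H983R2

open Classical in
/-- the couplings of the model in which all sites outside `Λ` are identified with `b` -/
def wire {L : ℕ} [NeZero L] (Λ : Finset (Tor L)) (b : Tor L) (c : Tor L × Tor L → ℝ)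
    (e : Tor L × Tor L) : ℝ :=
  if e.1 ∈ Λ ∧ e.2 ∈ Λ then c e
  else if e.1 ∈ Λ ∧ e.2 = b then ∑ y ∈ Λᶜ, (c (e.1, y) + c (y, e.1)) else 0

variable {L : ℕ} [NeZero L] {Λ : Finset (Tor L)} {b : Tor L} {c : Tor L × Tor L → ℝ}

theorem wire_nonneg (hc : ∀ e, 0 ≤ c e) (e : Tor L × Tor L) : 0 ≤ wire Λ b c e := by
  unfold wire
  split_ifs
  · exact hc _
  · exact Finset.sum_nonneg fun y _ => add_nonneg (hc _) (hc _)
  · exact le_rfl

theorem wire_in {x y : Tor L} (hx : x ∈ Λ) (hy : y ∈ Λ) : wire Λ b c (x, y) = c (x, y) := by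
  unfold wire
  rw [if_pos ⟨hx, hy⟩]

theorem wire_out {x y : Tor L} (hx : x ∉ Λ) : wire Λ b c (x, y) = 0 := by
  unfold wire
  rw [if_neg (fun h => hx h.1), if_neg (fun h => hx h.1)]

open Classical in
theorem wire_bd {x y : Tor L} (hx : x ∈ Λ) (hy : y ∉ Λ) : wire Λ b c (x, y) =
    if y = b then ∑ z ∈ Λᶜ, (c (x, z) + c (z, x)) else 0 := by
  unfold wire
  rw [if_neg (fun h => hy h.2)]
  simp only [hx, true_and]

/-- splitting of the energy -/
theorem pS_split {N : ℕ} (Λ : Finset (Tor L)) (c : Tor L × Tor L → ℝ) (T : Conf N L) :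
    pS c T = (∑ x ∈ Λ, ∑ y ∈ Λ, c (x, y) * inner ℝ (T x : EN N) (T y)) +
      (∑ x ∈ Λ, ∑ y ∈ Λᶜ, c (x, y) * inner ℝ (T x : EN N) (T y)) +
      ((∑ x ∈ Λᶜ, ∑ y ∈ Λ, c (x, y) * inner ℝ (T x : EN N) (T y)) +
      ∑ x ∈ Λᶜ, ∑ y ∈ Λᶜ, c (x, y) * inner ℝ (T x : EN N) (T y)) := by
  unfold pS
  have h1 : ∑ e : Tor L × Tor L, c e * inner ℝ (T e.1 : EN N) (T e.2) =
      ∑ x : Tor L, ∑ y : Tor L, c (x, y) * inner ℝ (T x : EN N) (T y) :=
    Fintype.sum_prod_type _
  rw [h1, ← Finset.sum_add_distrib, ← Finset.sum_add_distrib, ← Finset.sum_add_sum_compl Λ]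
  congr 1
  · exact Finset.sum_congr rfl fun x _ => (Finset.sum_add_sum_compl Λ _).symm
  · exact Finset.sum_congr rfl fun x _ => (Finset.sum_add_sum_compl Λ _).symm

theorem sph_self {N : ℕ} (s : Sph N) : inner ℝ (s : EN N) (s : EN N) = (1 : ℝ) := by
  rw [real_inner_self_eq_norm_sq]
  have : ‖(s : EN N)‖ = 1 := by simp
  rw [this, one_pow]

/-- the energy of the wired model -/
theorem pS_wire {N : ℕ} (hb : b ∉ Λ) (S' S : Conf N L) :
    pS c (splice Λ S' fun _ => S b) =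
      pS (wire Λ b c) (splice Λ S' S) + ∑ x ∈ Λᶜ, ∑ y ∈ Λᶜ, c (x, y) := by
  classical
  rw [pS_split Λ c, pS_split Λ (wire Λ b c)]
  have sin : ∀ (η : Conf N L) (x : Tor L), x ∈ Λ → splice Λ S' η x = S' x := by
    intro η x hx
    unfold splice
    rw [if_pos hx]
  have sout : ∀ (η : Conf N L) (x : Tor L), x ∉ Λ → splice Λ S' η x = η x := by
    intro η x hx
    unfold splice
    rw [if_neg hx]
  have e1 : ∑ x ∈ Λ, ∑ y ∈ Λ, c (x, y) *
      inner ℝ (splice Λ S' (fun _ => S b) x : EN N) (splice Λ S' (fun _ => S b) y) =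
      ∑ x ∈ Λ, ∑ y ∈ Λ, wire Λ b c (x, y) *
        inner ℝ (splice Λ S' S x : EN N) (splice Λ S' S y) := by
    refine Finset.sum_congr rfl fun x hx => Finset.sum_congr rfl fun y hy => ?_
    rw [sin _ x hx, sin _ y hy, sin _ x hx, sin _ y hy, wire_in hx hy]
  have e2 : ∑ x ∈ Λᶜ, ∑ y ∈ Λ, wire Λ b c (x, y) *
        inner ℝ (splice Λ S' S x : EN N) (splice Λ S' S y) = 0 := by
    refine Finset.sum_eq_zero fun x hx => Finset.sum_eq_zero fun y _ => ?_
    rw [wire_out (Finset.mem_compl.1 hx), zero_mul]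
  have e3 : ∑ x ∈ Λᶜ, ∑ y ∈ Λᶜ, wire Λ b c (x, y) *
        inner ℝ (splice Λ S' S x : EN N) (splice Λ S' S y) = 0 := by
    refine Finset.sum_eq_zero fun x hx => Finset.sum_eq_zero fun y _ => ?_
    rw [wire_out (Finset.mem_compl.1 hx), zero_mul]
  have e4 : ∑ x ∈ Λᶜ, ∑ y ∈ Λᶜ, c (x, y) *
      inner ℝ (splice Λ S' (fun _ => S b) x : EN N) (splice Λ S' (fun _ => S b) y) =
      ∑ x ∈ Λᶜ, ∑ y ∈ Λᶜ, c (x, y) := by
    refine Finset.sum_congr rfl fun x hx => Finset.sum_congr rfl fun y hy => ?_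
    rw [sout _ x (Finset.mem_compl.1 hx), sout _ y (Finset.mem_compl.1 hy), sph_self, mul_one]
  have e5 : ∑ x ∈ Λ, ∑ y ∈ Λᶜ, c (x, y) *
      inner ℝ (splice Λ S' (fun _ => S b) x : EN N) (splice Λ S' (fun _ => S b) y) =
      ∑ x ∈ Λ, ∑ y ∈ Λᶜ, c (x, y) * inner ℝ (S' x : EN N) (S b) := by
    refine Finset.sum_congr rfl fun x hx => Finset.sum_congr rfl fun y hy => ?_
    rw [sin _ x hx, sout _ y (Finset.mem_compl.1 hy)]
  have e6 : ∑ x ∈ Λᶜ, ∑ y ∈ Λ, c (x, y) *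
      inner ℝ (splice Λ S' (fun _ => S b) x : EN N) (splice Λ S' (fun _ => S b) y) =
      ∑ x ∈ Λ, ∑ y ∈ Λᶜ, c (y, x) * inner ℝ (S' x : EN N) (S b) := by
    rw [Finset.sum_comm]
    refine Finset.sum_congr rfl fun x hx => Finset.sum_congr rfl fun y hy => ?_
    rw [sin _ x hx, sout _ y (Finset.mem_compl.1 hy), real_inner_comm]
  have e7 : ∑ x ∈ Λ, ∑ y ∈ Λᶜ, wire Λ b c (x, y) *
        inner ℝ (splice Λ S' S x : EN N) (splice Λ S' S y) =
      ∑ x ∈ Λ, ∑ y ∈ Λᶜ, (c (x, y) + c (y, x)) * inner ℝ (S' x : EN N) (S b) := by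
    refine Finset.sum_congr rfl fun x hx => ?_
    rw [← Finset.sum_mul]
    have h1 : ∀ y ∈ Λᶜ, wire Λ b c (x, y) *
        inner ℝ (splice Λ S' S x : EN N) (splice Λ S' S y) =
        if y = b then (∑ z ∈ Λᶜ, (c (x, z) + c (z, x))) * inner ℝ (S' x : EN N) (S b) else 0 := by
      intro y hy
      rw [wire_bd hx (Finset.mem_compl.1 hy), sin _ x hx, sout _ y (Finset.mem_compl.1 hy)]
      split_ifs with h
      · rw [h]
      · rw [zero_mul]
    rw [Finset.sum_congr rfl h1, Finset.sum_ite_eq' Λᶜ b, if_pos (Finset.mem_compl.2 hb)]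
  rw [e1, e2, e3, e4, e5, e6, e7]
  have e8 : ∑ x ∈ Λ, ∑ y ∈ Λᶜ, (c (x, y) + c (y, x)) * inner ℝ (S' x : EN N) (S b) =
      (∑ x ∈ Λ, ∑ y ∈ Λᶜ, c (x, y) * inner ℝ (S' x : EN N) (S b)) +
      ∑ x ∈ Λ, ∑ y ∈ Λᶜ, c (y, x) * inner ℝ (S' x : EN N) (S b) := by
    rw [← Finset.sum_add_distrib]
    refine Finset.sum_congr rfl fun x _ => ?_
    rw [← Finset.sum_add_distrib]
    exact Finset.sum_congr rfl fun y _ => add_mul _ _ _
  rw [e8]
  ring

/-- the conditional expectations of the wired model -/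
theorem gH_wire {N : ℕ} (hb : b ∉ Λ) {B : Finset (Tor L)} (hB : B ⊆ Λ) (η : Conf N L)
    {p : Tor L} (hp : p ∈ B) (i : Fin N) :
    gH (pS (wire Λ b c)) B η (fun S => cc i (S p)) =
      gH (pS c) B (splice Λ η fun _ => η b) (fun S => cc i (S p)) := by
  obtain ⟨K, hK⟩ : ∃ K : ℝ, K = ∑ x ∈ Λᶜ, ∑ y ∈ Λᶜ, c (x, y) := ⟨_, rfl⟩
  have h1 : ∀ S : Conf N L, Real.exp (pS c (splice B S (splice Λ η fun _ => η b))) =
      Real.exp (pS (wire Λ b c) (splice B S η)) * Real.exp K := by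
    intro S
    rw [← Real.exp_add, ← gib2_splice hB]
    congr 1
    rw [pS_wire hb (splice B S η) η, hK]
    congr 2
    funext x
    unfold splice
    by_cases hx : x ∈ Λ
    · rw [if_pos hx]
    · have hxB : x ∉ B := fun h => hx (hB h)
      rw [if_neg hx, if_neg hxB]
  unfold gH
  simp only [h1]
  have h2 : ∀ η' S : Conf N L, cc i (splice B S η' p) = cc i (S p) := by
    intro η' S
    unfold splice
    rw [if_pos hp]
  simp only [h2]
  have h3 : (fun S : Conf N L => cc i (S p) *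
      (Real.exp (pS (wire Λ b c) (splice B S η)) * Real.exp K)) = fun S : Conf N L =>
      (cc i (S p) * Real.exp (pS (wire Λ b c) (splice B S η))) * Real.exp K := by
    funext S; ring
  rw [h3, integral_mul_const, integral_mul_const, mul_div_mul_right _ _ (Real.exp_pos _).ne']

open Classical in
/-- the two point function with the boundary -/
def uu {N : ℕ} (Λ : Finset (Tor L)) (b : Tor L) (c : Tor L × Tor L → ℝ) (i : Fin N)
    (x : Tor L) : ℝ := if x ∈ Λ then corJ (wire Λ b c) i x b else 1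

theorem uu_nonneg {N : ℕ} (hN : N ≠ 0) (hc : ∀ e, 0 ≤ c e) (i : Fin N) (x : Tor L) :
    0 ≤ uu Λ b c i x := by
  unfold uu
  split_ifs
  · exact corJ_nonneg hN (wire_nonneg hc) i x b
  · exact zero_le_one

theorem uu_le_one {N : ℕ} (hN : N ≠ 0) (i : Fin N) (x : Tor L) : uu Λ b c i x ≤ 1 := by
  unfold uu
  split_ifs
  · exact corJ_le_one hN _ i x b
  · exact le_rfl

theorem wire_exit {N : ℕ} (hN : N ≠ 0) (hc : ∀ e, 0 ≤ c e) (i : Fin N) (hb : b ∉ Λ)
    (p : Tor L) (R m : ℝ) (hR : 0 < R) (hsub : ball p R ⊆ Λ) (hm0 : 0 ≤ m)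
    (hm : ∀ η : Conf N L, |gH (pS c) (ball p (R / 4)) η (fun S => cc i (S p))| ≤ m) :
    corJ (wire Λ b c) i p b ≤ ∑ w ∈ ball p R, ∑ w' ∈ (ball p R)ᶜ,
      2 * (c (w, w') + c (w', w)) * (if tnorm (w - p) ≤ R / 2 then 1 else m) *
        uu Λ b c i w' := by
  classical
  have hy : R < tnorm (b - p) := by
    by_contra h
    push Not at h
    exact hb (hsub (by
      simp only [ball, Finset.mem_filter, Finset.mem_univ, true_and]
      exact h))
  have hball : ball p (R / 4) ⊆ Λ := by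
    refine Finset.Subset.trans ?_ hsub
    intro z hz
    simp only [ball, Finset.mem_filter, Finset.mem_univ, true_and] at hz ⊢
    linarith
  have hp : p ∈ ball p (R / 4) := by
    simp only [ball, Finset.mem_filter, Finset.mem_univ, true_and, sub_self, tnorm_zero]
    positivity
  have hex := corJ_exit hN (wire_nonneg (Λ := Λ) (b := b) hc) i p b R m hR hy hm0 (fun η => by
    rw [gH_wire hb hball η hp]
    exact hm _)
  refine hex.trans (Finset.sum_le_sum fun w hw => ?_)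
  have hwΛ : w ∈ Λ := hsub hw
  obtain ⟨f, hf⟩ : ∃ f : ℝ, f = (if tnorm (w - p) ≤ R / 2 then 1 else m) := ⟨_, rfl⟩
  rw [← hf]
  have hf0 : 0 ≤ f := by
    rw [hf]
    split_ifs
    · exact zero_le_one
    · exact hm0
  -- split the complement of the ball
  have hsplit : ∀ F : Tor L → ℝ, ∑ w' ∈ (ball p R)ᶜ, F w' =
      ∑ w' ∈ Λ \ ball p R, F w' + ∑ w' ∈ Λᶜ, F w' := by
    intro F
    rw [← Finset.sum_union]
    · refine Finset.sum_congr ?_ fun _ _ => rfl
      ext z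
      simp only [Finset.mem_compl, Finset.mem_union, Finset.mem_sdiff]
      constructor
      · intro hz
        by_cases hzΛ : z ∈ Λ
        · exact Or.inl ⟨hzΛ, hz⟩
        · exact Or.inr hzΛ
      · rintro (⟨_, h⟩ | h)
        · exact h
        · exact fun h' => h (hsub h')
    · rw [Finset.disjoint_left]
      intro z hz hz'
      exact (Finset.mem_compl.1 hz') (Finset.mem_sdiff.1 hz).1
  rw [hsplit, hsplit]
  refine add_le_add (le_of_eq (Finset.sum_congr rfl fun w' hw' => ?_)) ?_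
  · have hw'Λ : w' ∈ Λ := (Finset.mem_sdiff.1 hw').1
    rw [wire_in hwΛ hw'Λ, wire_in hw'Λ hwΛ]
    unfold uu
    rw [if_pos hw'Λ]
  · have h1 : ∀ w' ∈ Λᶜ, 2 * (wire Λ b c (w, w') + wire Λ b c (w', w)) * f *
        corJ (wire Λ b c) i w' b =
        if w' = b then 2 * (∑ z ∈ Λᶜ, (c (w, z) + c (z, w))) * f * corJ (wire Λ b c) i b b
        else 0 := by
      intro w' hw'
      rw [wire_bd hwΛ (Finset.mem_compl.1 hw'), wire_out (Finset.mem_compl.1 hw'), add_zero]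
      split_ifs with h
      · rw [h]
      · ring
    rw [Finset.sum_congr rfl h1, Finset.sum_ite_eq' Λᶜ b, if_pos (Finset.mem_compl.2 hb)]
    have h2 : ∑ w' ∈ Λᶜ, 2 * (c (w, w') + c (w', w)) * f * uu Λ b c i w' =
        2 * (∑ z ∈ Λᶜ, (c (w, z) + c (z, w))) * f := by
      rw [Finset.mul_sum, Finset.sum_mul]
      refine Finset.sum_congr rfl fun w' hw' => ?_
      unfold uu
      rw [if_neg (Finset.mem_compl.1 hw'), mul_one]
    rw [h2]
    have h3 := corJ_le_one hN (wire Λ b c) i b b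
    have h4 : 0 ≤ 2 * (∑ z ∈ Λᶜ, (c (w, z) + c (z, w))) * f :=
      mul_nonneg (mul_nonneg (by norm_num) (Finset.sum_nonneg fun z _ =>
        add_nonneg (hc _) (hc _))) hf0
    nlinarith

end Pool.Agent.Q218.ON
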