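import Pool.Agent.Q218.ON.WireBC
import Pool.Agent.Q218.ON.Dec2

/-!
# All local observables with constant boundary conditions
-/

set_option autoImplicit false

noncomputable section

namespace Pool.Agent.Q218.ON

open MeasureTheory Pool.Agent.H5R2.ON Pool.Agent.H717R2.ON3 Pool.Agent.H983R2.ONJ
open Pool.Agent.H983R2

variable {N L : ℕ} [NeZero L] {Λ : Finset (Tor L)} {b : Tor L} {c : Tor L × Tor L → ℝ}

/-- integral with the constant boundary condition `s` -/
def PF (Λ : Finset (Tor L)) (c : Tor L × Tor L → ℝ) (F : Conf N L → ℝ) (s : Sph N) : ℝ :=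
  ∫ S : Conf N L, F S * Real.exp (pS c (splice Λ S fun _ => s)) ∂(prior N L)

/-- the constant -/
def Kc (Λ : Finset (Tor L)) (c : Tor L × Tor L → ℝ) : ℝ :=
  Real.exp (-∑ x ∈ Λᶜ, ∑ y ∈ Λᶜ, c (x, y))

theorem wire_res (hN : N ≠ 0) (hb : b ∉ Λ) {F : Conf N L → ℝ} (hF : Measurable F) {B : ℝ}
    (hB : ∀ S, |F S| ≤ B) (hFΛ : DependsOn F (Λ : Set (Tor L))) {φ : Sph N → ℝ}
    (hφ : Measurable φ) {B' : ℝ} (hB' : ∀ s, |φ s| ≤ B') :
    ∫ S : Conf N L, F S * φ (S b) * Real.exp (pS (wire Λ b c) S) ∂(prior N L) =
      Kc Λ c * ∫ S : Conf N L, φ (S b) * PF Λ c F (S b) ∂(prior N L) := by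
  haveI := prior_isProbabilityMeasure N L hN
  have hcont : Continuous fun S : Conf N L => Real.exp (pS (wire Λ b c) S) :=
    Real.continuous_exp.comp (continuous_pS _)
  obtain ⟨B2, hB2⟩ := Aux269.bdd_of_continuous hcont
  have hφm : Measurable fun S : Conf N L => φ (S b) := hφ.comp (measurable_pi_apply b)
  obtain ⟨h1, -⟩ := gib2_resample hN Λ (Φ := fun S : Conf N L =>
    F S * φ (S b) * Real.exp (pS (wire Λ b c) S)) ((hF.mul hφm).mul hcont.measurable)
    (B * B' * B2) (fun S => by
      have h1 := (abs_nonneg _).trans (hB S)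
      have h2 := (abs_nonneg _).trans (hB' (S b))
      rw [abs_mul, abs_mul]
      exact mul_le_mul (mul_le_mul (hB _) (hB' _) (abs_nonneg _) h1) (hB2 _) (abs_nonneg _)
        (mul_nonneg h1 h2))
  rw [h1, ← integral_const_mul]
  refine integral_congr_ae (Filter.Eventually.of_forall fun S => ?_)
  simp only
  unfold PF
  rw [← integral_const_mul, ← integral_const_mul]
  refine integral_congr_ae (Filter.Eventually.of_forall fun S' => ?_)
  simp only
  have e1 : F (splice Λ S' S) = F S' := by
    refine hFΛ fun x hx => ?_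
    have hx' : x ∈ Λ := hx
    unfold splice
    rw [if_pos hx']
  have e2 : splice Λ S' S b = S b := by
    unfold splice
    rw [if_neg hb]
  rw [e1, e2, pS_wire (c := c) hb S' S, Real.exp_add]
  unfold Kc
  rw [Real.exp_neg]
  have h3 := Real.exp_pos (∑ x ∈ Λᶜ, ∑ y ∈ Λᶜ, c (x, y))
  field_simp

theorem PF_rot (hN : N ≠ 0) (F : Conf N L → ℝ) (Q : EN N ≃ₗᵢ[ℝ] EN N) (s : Sph N) :
    PF Λ c F (rot Q s) = PF Λ c (fun S => F (rotC Q S)) s := by
  unfold PF
  have h := (mp_rotC (L := L) hN Q).integral_comp (emb_rotC Q)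
    (fun S : Conf N L => F S * Real.exp (pS c (splice Λ S fun _ => rot Q s)))
  rw [← h]
  refine integral_congr_ae (Filter.Eventually.of_forall fun S => ?_)
  simp only
  rw [splice_rot, pS_rotC]

/-- the mean of the spin at `w` is parallel to the boundary condition -/
theorem PF_ax (hN : N ≠ 0) (w : Tor L) (v : EN N) (s : Sph N) :
    PF Λ c (fun S : Conf N L => ax v (S w)) s = ax v s * Ph Λ c w 0 s := by
  obtain ⟨u, hu⟩ : ∃ u : EN N, u = v - (ax v s) • (s : EN N) := ⟨_, rfl⟩
  have hus : inner ℝ u (s : EN N) = (0 : ℝ) := by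
    rw [hu, inner_sub_left, inner_smul_left, sph_self]
    unfold ax
    simp
  have hint : ∀ z : EN N, Integrable (fun S : Conf N L => ax z (S w) *
      Real.exp (pS c (splice Λ S fun _ => s))) (prior N L) := fun z =>
    integrable_prior N L (((continuous_ax z).comp (continuous_apply w)).mul
      (Real.continuous_exp.comp ((continuous_pS c).comp (gib2_continuous_splice Λ _))))
  have hzero : PF Λ c (fun S : Conf N L => ax u (S w)) s = 0 := by
    by_cases hu0 : u = 0
    · unfold PF ax
      rw [hu0]
      simp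
    · obtain ⟨z, hz⟩ : ∃ z : EN N, z = ‖u‖⁻¹ • u := ⟨_, rfl⟩
      have hz1 : ‖z‖ = 1 := by
        rw [hz, norm_smul, norm_inv, norm_norm, inv_mul_cancel₀ (norm_ne_zero_iff.2 hu0)]
      have huz : u = ‖u‖ • z := by
        rw [hz, smul_smul, mul_inv_cancel₀ (norm_ne_zero_iff.2 hu0), one_smul]
      have hzs : inner ℝ z (s : EN N) = (0 : ℝ) := by
        rw [hz, inner_smul_left, hus, mul_zero]
      have hrs : rot (rho z) s = s := by
        ext1
        rw [rot_coe, rho_apply hz1, hzs, mul_zero, zero_smul, sub_zero]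
      have h1 := PF_rot (Λ := Λ) (c := c) hN (fun S : Conf N L => ax u (S w)) (rho z) s
      rw [hrs] at h1
      have h2 : ∀ S : Conf N L, ax u (rotC (rho z) S w) = -ax u (S w) := by
        intro S
        have h3 : ∀ t : Sph N, ax u t = ‖u‖ * ax z t := by
          intro t
          unfold ax
          conv_lhs => rw [huz]
          rw [inner_smul_left]
          simp
        show ax u (rot (rho z) (S w)) = -ax u (S w)
        rw [h3, h3, ax_rho hz1]
        ring
      simp only [h2] at h1
      have h4 : PF Λ c (fun S : Conf N L => -ax u (S w)) s =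
          -PF Λ c (fun S : Conf N L => ax u (S w)) s := by
        unfold PF
        rw [← integral_neg]
        refine integral_congr_ae (Filter.Eventually.of_forall fun S => ?_)
        simp only
        ring
      rw [h4] at h1
      linarith
  have h5 : ∀ S : Conf N L, ax v (S w) = ax u (S w) +
      ax v s * inner ℝ (S w : EN N) (s : EN N) := by
    intro S
    have h6 : ax u (S w) = ax v (S w) - ax v s * inner ℝ (s : EN N) (S w : EN N) := by
      unfold ax
      rw [hu, inner_sub_left, inner_smul_left]
      unfold ax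
      simp
    rw [h6, real_inner_comm]
    ring
  have h7 : PF Λ c (fun S : Conf N L => ax v (S w)) s =
      PF Λ c (fun S : Conf N L => ax u (S w)) s + ax v s * Ph Λ c w 0 s := by
    unfold PF Ph
    rw [← integral_const_mul, ← integral_add (hint u)]
    · refine integral_congr_ae (Filter.Eventually.of_forall fun S => ?_)
      simp only
      rw [h5]
      ring
    · refine Integrable.const_mul ?_ _
      refine integrable_prior N L (Continuous.mul ?_ (Real.continuous_exp.comp
        ((continuous_pS c).comp (gib2_continuous_splice Λ _))))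
      exact continuous_const.add (continuous_const.mul
        (Continuous.inner (continuous_subtype_val.comp (continuous_apply w))
          continuous_const))
  rw [h7, hzero, zero_add]

end Pool.Agent.Q218.ON
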