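import Pool.Agent.Q218.ON.WireDecay

/-!
# The wired model and constant boundary conditions
-/

set_option autoImplicit false

noncomputable section

namespace Pool.Agent.Q218.ON

open MeasureTheory Pool.Agent.H5R2.ON Pool.Agent.H717R2.ON3 Pool.Agent.H983R2.ONJ
open Pool.Agent.H983R2

variable {N L : ℕ} [NeZero L] {Λ : Finset (Tor L)} {b : Tor L} {c : Tor L × Tor L → ℝ}

theorem splice_rot (Q : EN N ≃ₗᵢ[ℝ] EN N) (S : Conf N L) (s : Sph N) :
    splice Λ (rotC Q S) (fun _ => rot Q s) = rotC Q (splice Λ S fun _ => s) := by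
  funext x
  unfold splice rotC
  by_cases h : x ∈ Λ
  · simp only [if_pos h]
  · simp only [if_neg h]

/-- numerator with the constant boundary condition `s` -/
def Ph (Λ : Finset (Tor L)) (c : Tor L × Tor L → ℝ) (x : Tor L) (k : ℝ) (s : Sph N) : ℝ :=
  ∫ S : Conf N L, (k + (1 - k) * inner ℝ (S x : EN N) (s : EN N)) *
    Real.exp (pS c (splice Λ S fun _ => s)) ∂(prior N L)

theorem Ph_rot (hN : N ≠ 0) (x : Tor L) (k : ℝ) (Q : EN N ≃ₗᵢ[ℝ] EN N) (s : Sph N) :
    Ph Λ c x k (rot Q s) = Ph Λ c x k s := by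
  unfold Ph
  have h := (mp_rotC (L := L) hN Q).integral_comp (emb_rotC Q)
    (fun S : Conf N L => (k + (1 - k) * inner ℝ (S x : EN N) (rot Q s : EN N)) *
      Real.exp (pS c (splice Λ S fun _ => rot Q s)))
  rw [← h]
  refine integral_congr_ae (Filter.Eventually.of_forall fun S => ?_)
  simp only
  rw [splice_rot, pS_rotC]
  congr 3
  show inner ℝ (rot Q (S x) : EN N) (rot Q s : EN N) = _
  rw [rot_coe, rot_coe, Q.inner_map_map]

theorem Ph_const (hN : N ≠ 0) (x : Tor L) (k : ℝ) (s e : Sph N) :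
    Ph Λ c x k s = Ph Λ c x k e := by
  have hn : ‖(e : EN N)‖ = ‖(s : EN N)‖ := by simp
  set T : EN N ≃ₗᵢ[ℝ] EN N := Submodule.reflection (ℝ ∙ ((e : EN N) - s))ᗮ with hT
  have hTs : T e = s := Submodule.reflection_sub hn
  have hs' : rot T e = s := by
    ext1
    rw [rot_coe, hTs]
  rw [← hs', Ph_rot hN]

/-- the wired model in terms of the constant boundary condition -/
theorem wire_num (hN : N ≠ 0) (hb : b ∉ Λ) {x : Tor L} (hx : x ∈ Λ) (k : ℝ) (e : Sph N) :
    ∫ S : Conf N L, (k + (1 - k) * inner ℝ (S x : EN N) (S b : EN N)) *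
      Real.exp (pS (wire Λ b c) S) ∂(prior N L) =
      Real.exp (-∑ x ∈ Λᶜ, ∑ y ∈ Λᶜ, c (x, y)) * Ph Λ c x k e := by
  haveI := prior_isProbabilityMeasure N L hN
  have hcont : Continuous fun S : Conf N L =>
      (k + (1 - k) * inner ℝ (S x : EN N) (S b : EN N)) * Real.exp (pS (wire Λ b c) S) := by
    refine Continuous.mul ?_ (Real.continuous_exp.comp (continuous_pS _))
    exact continuous_const.add (continuous_const.mul
      (Continuous.inner (continuous_subtype_val.comp (continuous_apply x))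
        (continuous_subtype_val.comp (continuous_apply b))))
  obtain ⟨B, hB⟩ := Aux269.bdd_of_continuous hcont
  obtain ⟨h1, -⟩ := gib2_resample hN Λ hcont.measurable B hB
  rw [h1]
  have h2 : ∀ S S' : Conf N L, (k + (1 - k) * inner ℝ (splice Λ S' S x : EN N)
      (splice Λ S' S b : EN N)) * Real.exp (pS (wire Λ b c) (splice Λ S' S)) =
      Real.exp (-∑ x ∈ Λᶜ, ∑ y ∈ Λᶜ, c (x, y)) *
        ((k + (1 - k) * inner ℝ (S' x : EN N) (S b : EN N)) *
          Real.exp (pS c (splice Λ S' fun _ => S b))) := by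
    intro S S'
    have e1 : splice Λ S' S x = S' x := by
      unfold splice
      rw [if_pos hx]
    have e2 : splice Λ S' S b = S b := by
      unfold splice
      rw [if_neg hb]
    rw [e1, e2, pS_wire (c := c) hb S' S, Real.exp_add, Real.exp_neg]
    have h3 := Real.exp_pos (∑ x ∈ Λᶜ, ∑ y ∈ Λᶜ, c (x, y))
    field_simp
  simp only [h2]
  have h3 : ∀ S : Conf N L, ∫ S' : Conf N L, Real.exp (-∑ x ∈ Λᶜ, ∑ y ∈ Λᶜ, c (x, y)) *
        ((k + (1 - k) * inner ℝ (S' x : EN N) (S b : EN N)) *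
          Real.exp (pS c (splice Λ S' fun _ => S b))) ∂(prior N L) =
      Real.exp (-∑ x ∈ Λᶜ, ∑ y ∈ Λᶜ, c (x, y)) * Ph Λ c x k e := by
    intro S
    rw [integral_const_mul]
    congr 1
    exact Ph_const hN x k (S b) e
  simp only [h3]
  simp

/-- the magnetisation with constant boundary condition is the two point function of the wired
model -/
theorem bc_eq (hN : N ≠ 0) (hb : b ∉ Λ) {x : Tor L} (hx : x ∈ Λ) (e : Sph N) :
    gH (pS c) Λ (fun _ => e) (fun S => inner ℝ (S x : EN N) (e : EN N)) =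
      gib (wire Λ b c) (fun S : Conf N L => inner ℝ (S x : EN N) (S b : EN N)) := by
  have h1 := wire_num (c := c) hN hb hx 0 e
  have h2 := wire_num (c := c) hN hb hx 1 e
  simp only [zero_add, sub_zero, one_mul, sub_self, zero_mul, add_zero] at h1 h2
  unfold gib
  rw [h1, h2, mul_div_mul_left _ _ (Real.exp_pos _).ne']
  unfold gH Ph
  have e1 : ∀ S : Conf N L, splice Λ S (fun _ => e) x = S x := by
    intro S
    unfold splice
    rw [if_pos hx]
  simp only [e1, zero_add, sub_zero, one_mul, sub_self, zero_mul, add_zero]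

end Pool.Agent.Q218.ON
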