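import Pool.Agent.Q218.ON.Wire

/-!
# Exponential decay of the magnetisation with constant boundary conditions

The argument is the one of `corJ_decay` (`Pool.Agent.H269R2.ONJ.Fin`, helper269), with the
distance to the second site replaced by the distance to the boundary.
-/

set_option autoImplicit false

noncomputable section

namespace Pool.Agent.Q218.ON

open MeasureTheory Pool.Agent.H5R2.ON Pool.Agent.H717R2.ON3 Pool.Agent.H983R2.ONJ
open Pool.Agent.H983R2 Pool.Agent.H983R2.ONJ.AuxFin269

/-- distance to the complement of `Λ` -/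
def dl {L : ℕ} [NeZero L] (Λ : Finset (Tor L)) (b : Tor L) (hb : b ∉ Λ) (x : Tor L) : ℝ :=
  (Λᶜ).inf' ⟨b, Finset.mem_compl.2 hb⟩ fun y => tnorm (x - y)

theorem dl_le {L : ℕ} [NeZero L] {Λ : Finset (Tor L)} {b : Tor L} (hb : b ∉ Λ) (x : Tor L)
    {y : Tor L} (hy : y ∉ Λ) : dl Λ b hb x ≤ tnorm (x - y) :=
  Finset.inf'_le _ (Finset.mem_compl.2 hy)

theorem le_dl {L : ℕ} [NeZero L] {Λ : Finset (Tor L)} {b : Tor L} (hb : b ∉ Λ) (x : Tor L)
    {r : ℝ} (h : ∀ y, y ∉ Λ → r ≤ tnorm (x - y)) : r ≤ dl Λ b hb x :=
  Finset.le_inf' _ _ fun y hy => h y (Finset.mem_compl.1 hy)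

theorem dl_lip {L : ℕ} [NeZero L] {Λ : Finset (Tor L)} {b : Tor L} (hb : b ∉ Λ)
    (x z : Tor L) : dl Λ b hb x ≤ tnorm (x - z) + dl Λ b hb z := by
  have h1 : dl Λ b hb x - tnorm (x - z) ≤ dl Λ b hb z := by
    refine le_dl hb z fun y hy => ?_
    have h2 := dl_le hb x hy
    have h3 := tnorm_add_le (x - z) (z - y)
    rw [sub_add_sub_cancel] at h3
    linarith
  linarith

theorem dl_nonneg {L : ℕ} [NeZero L] {Λ : Finset (Tor L)} {b : Tor L} (hb : b ∉ Λ)
    (x : Tor L) : 0 ≤ dl Λ b hb x := le_dl hb x fun _ _ => tnorm_nonneg _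

theorem wire_decay (N : ℕ) (hN : 3 ≤ N) (A a : ℝ) (hA : 0 ≤ A) (ha : 0 < a) :
    ∃ C b : ℝ, 0 < C ∧ 0 < b ∧ ∀ (L : ℕ) [NeZero L] (c : Tor L × Tor L → ℝ), ExpC A a c →
      ∀ (i : Fin N) (Λ : Finset (Tor L)) (z : Tor L) (hz : z ∉ Λ) (x : Tor L),
        uu Λ z c i x ≤ C * Real.exp (-b * dl Λ z hz x) := by
  obtain ⟨C0, hC0, hMB⟩ := MBJ_decay N hN A a hA ha
  obtain ⟨K0, hK0, hK⟩ := card_ball_le
  obtain ⟨Kl, hKl0, hKl⟩ := lsum (a / 4) (by positivity)
  have hN0 : N ≠ 0 := by omega
  obtain ⟨R, hR4, hR⟩ := exists_scale C0 (16 * A * Real.exp 1 * K0 * Kl) a ha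
  have hR0 : 0 < R := by linarith
  obtain ⟨b, hb⟩ : ∃ b : ℝ, b = min (a / 2) (1 / R) := ⟨_, rfl⟩
  have hb0 : 0 < b := by rw [hb]; exact lt_min (by positivity) (by positivity)
  have hba : b ≤ a / 2 := by rw [hb]; exact min_le_left _ _
  have hbR : b * R ≤ 1 := by
    have h1 : b ≤ 1 / R := by rw [hb]; exact min_le_right _ _
    rwa [le_div_iff₀ hR0] at h1
  refine ⟨Real.exp 2, b, Real.exp_pos _, hb0, ?_⟩
  intro L _ c hc i Λ z hz
  have hc0 : ∀ e, 0 ≤ c e := fun e => (hc e).1
  by_cases hL : (L : ℝ) ≤ 2 * R
  · intro x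
    have h1 := uu_le_one (Λ := Λ) (b := z) (c := c) hN0 i x
    have h2 : dl Λ z hz x ≤ 2 * R := (dl_le hz x hz).trans ((tnorm_le_L _).trans hL)
    rw [← Real.exp_add]
    refine h1.trans (Real.one_le_exp ?_)
    nlinarith
  push Not at hL
  obtain ⟨m, hm⟩ : ∃ m : ℝ, m = C0 / (R / 4) ^ 4 := ⟨_, rfl⟩
  have hm0 : 0 ≤ m := by rw [hm]; positivity
  -- the maximum
  obtain ⟨p, -, hq⟩ := Finset.exists_max_image (Finset.univ : Finset (Tor L))
    (fun q => uu Λ z c i q * Real.exp (b * dl Λ z hz q)) ⟨0, Finset.mem_univ _⟩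
  obtain ⟨M, hM⟩ : ∃ M : ℝ, M = uu Λ z c i p * Real.exp (b * dl Λ z hz p) :=
    ⟨_, rfl⟩
  have hmax : ∀ x : Tor L, uu Λ z c i x ≤ M * Real.exp (-(b * dl Λ z hz x)) := by
    intro x
    have h1 := hq x (Finset.mem_univ _)
    rw [← hM] at h1
    rw [Real.exp_neg, ← div_eq_mul_inv, le_div_iff₀ (Real.exp_pos _)]
    exact h1
  have hM0 : 0 ≤ M := by
    rw [hM]
    exact mul_nonneg (uu_nonneg hN0 hc0 i _) (Real.exp_pos _).le
  -- it is at most `e`
  have hMe : M ≤ Real.exp 1 := by
    by_cases hpy : dl Λ z hz p ≤ R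
    · rw [hM]
      have h1 := uu_le_one (Λ := Λ) (b := z) (c := c) hN0 i p
      have h2 : Real.exp (b * dl Λ z hz p) ≤ Real.exp 1 := by
        refine Real.exp_le_exp.mpr ?_
        nlinarith
      have h3 := uu_nonneg (Λ := Λ) (b := z) hN0 hc0 i p
      have h4 := Real.exp_pos (b * dl Λ z hz p)
      nlinarith
    · push Not at hpy
      have hsub : ball p R ⊆ Λ := by
        intro v hv
        by_contra hvΛ
        simp only [ball, Finset.mem_filter, Finset.mem_univ, true_and] at hv
        have h1 := dl_le hz p hvΛ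
        rw [tnorm_sub_comm] at h1
        linarith
      have hpΛ : p ∈ Λ := hsub (by
        simp only [ball, Finset.mem_filter, Finset.mem_univ, true_and, sub_self, tnorm_zero]
        exact hR0.le)
      have hexit0 := wire_exit hN0 hc0 i hz p R m hR0 hsub hm0 (fun η => by
        rw [hm]
        exact hMB (R / 4) (by linarith) L (by linarith) c hc p η i)
      have huup : uu Λ z c i p = corJ (wire Λ z c) i p z := by
        unfold uu
        rw [if_pos hpΛ]
      have hexit := huup.le.trans hexit0
      -- one term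
      obtain ⟨g, hg⟩ : ∃ g : Tor L → ℝ, g = fun z => Real.exp (-(a / 4) * tnorm z) := ⟨_, rfl⟩
      have hg0 : ∀ z, 0 ≤ g z := fun z => by rw [hg]; exact (Real.exp_pos _).le
      have hgsum : ∑ z : Tor L, g z ≤ Kl := by
        refine (Finset.sum_le_sum fun z _ => ?_).trans (hKl L)
        rw [hg]
        simp only
        have h1 : (1 : ℝ) ≤ (1 + tnorm z) ^ 2 := by
          have := tnorm_nonneg z
          nlinarith
        have h2 := Real.exp_pos (-(a / 4) * tnorm z)
        nlinarith
      have hterm : ∀ w ∈ ball p R, ∀ w' ∈ (ball p R)ᶜ,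
          2 * (c (w, w') + c (w', w)) * (if tnorm (w - p) ≤ R / 2 then 1 else m) *
            uu Λ z c i w' * Real.exp (b * dl Λ z hz p) ≤
          4 * A * Real.exp 1 * M * ((m + Real.exp (-(a * R / 8))) * g (w' - w)) := by
        intro w hw w' hw'
        simp only [ball, Finset.mem_filter, Finset.mem_univ, true_and, Finset.mem_compl,
          not_le] at hw hw'
        obtain ⟨t, ht⟩ : ∃ t : ℝ, t = tnorm (w' - w) := ⟨_, rfl⟩
        have ht0 : 0 ≤ t := by rw [ht]; exact tnorm_nonneg _
        -- the couplings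
        have h1 : c (w, w') ≤ A * Real.exp (-a * t) := by rw [ht]; exact (hc (w, w')).2
        have h2 : c (w', w) ≤ A * Real.exp (-a * t) := by
          rw [ht, tnorm_sub_comm]; exact (hc (w', w)).2
        have h3 : 0 ≤ c (w, w') + c (w', w) := add_nonneg (hc0 _) (hc0 _)
        -- the factor
        obtain ⟨f, hf⟩ : ∃ f : ℝ, f = (if tnorm (w - p) ≤ R / 2 then 1 else m) := ⟨_, rfl⟩
        rw [← hf]
        have hf0 : 0 ≤ f := by
          rw [hf]
          split_ifs
          · exact zero_le_one
          · exact hm0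
        have hfg : f * Real.exp (-(a / 2) * t) ≤
            (m + Real.exp (-(a * R / 8))) * Real.exp (-(a / 4) * t) := by
          by_cases h : tnorm (w - p) ≤ R / 2
          · rw [hf, if_pos h, one_mul]
            have h4 : R / 2 ≤ t := by
              have := tnorm_add_le (w' - w) (w - p)
              rw [sub_add_sub_cancel] at this
              rw [ht]
              linarith
            have h5 : Real.exp (-(a / 2) * t) ≤
                Real.exp (-(a * R / 8)) * Real.exp (-(a / 4) * t) := by
              rw [← Real.exp_add]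
              refine Real.exp_le_exp.mpr ?_
              nlinarith
            refine h5.trans (mul_le_mul_of_nonneg_right ?_ (Real.exp_pos _).le)
            linarith
          · rw [hf, if_neg h]
            refine mul_le_mul ?_ ?_ (Real.exp_pos _).le ?_
            · have := Real.exp_pos (-(a * R / 8))
              linarith
            · refine Real.exp_le_exp.mpr ?_
              nlinarith
            · have := Real.exp_pos (-(a * R / 8))
              linarith
        -- the triangle inequality
        have h6 : dl Λ z hz p ≤ R + t + dl Λ z hz w' := by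
          have e1 := dl_lip hz p w
          have e2 := dl_lip hz w w'
          rw [tnorm_sub_comm p w] at e1
          rw [tnorm_sub_comm w w'] at e2
          rw [ht]
          linarith
        have h7 : Real.exp (b * dl Λ z hz p) ≤
            Real.exp 1 * Real.exp ((a / 2) * t) * Real.exp (b * dl Λ z hz w') := by
          rw [← Real.exp_add, ← Real.exp_add]
          refine Real.exp_le_exp.mpr ?_
          nlinarith
        have h8 := hmax w'
        have h9 := uu_nonneg (Λ := Λ) (b := z) hN0 hc0 i w'
        have h10 : uu Λ z c i w' * Real.exp (b * dl Λ z hz p) ≤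
            M * (Real.exp 1 * Real.exp ((a / 2) * t)) := by
          calc uu Λ z c i w' * Real.exp (b * dl Λ z hz p)
              ≤ (M * Real.exp (-(b * dl Λ z hz w'))) *
                (Real.exp 1 * Real.exp ((a / 2) * t) * Real.exp (b * dl Λ z hz w')) :=
                mul_le_mul h8 h7 (Real.exp_pos _).le (by positivity)
            _ = M * (Real.exp 1 * Real.exp ((a / 2) * t)) *
                (Real.exp (-(b * dl Λ z hz w')) * Real.exp (b * dl Λ z hz w')) := by ring
            _ = M * (Real.exp 1 * Real.exp ((a / 2) * t)) := by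
                have h12 : Real.exp (-(b * dl Λ z hz w')) * Real.exp (b * dl Λ z hz w') = 1 := by
                  rw [← Real.exp_add, neg_add_cancel, Real.exp_zero]
                rw [h12, mul_one]
        have hgw : g (w' - w) = Real.exp (-(a / 4) * t) := by rw [hg, ht]
        rw [hgw]
        have h11 : Real.exp (-a * t) * Real.exp ((a / 2) * t) = Real.exp (-(a / 2) * t) := by
          rw [← Real.exp_add]
          congr 1
          ring
        calc 2 * (c (w, w') + c (w', w)) * f * uu Λ z c i w' * Real.exp (b * dl Λ z hz p)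
            = (2 * (c (w, w') + c (w', w)) * f) *
              (uu Λ z c i w' * Real.exp (b * dl Λ z hz p)) := by ring
          _ ≤ (4 * (A * Real.exp (-a * t)) * f) *
              (M * (Real.exp 1 * Real.exp ((a / 2) * t))) := by
              refine mul_le_mul ?_ h10 (mul_nonneg h9 (Real.exp_pos _).le) (by positivity)
              refine mul_le_mul_of_nonneg_right ?_ hf0
              linarith
          _ = 4 * A * Real.exp 1 * M *
              (f * (Real.exp (-a * t) * Real.exp ((a / 2) * t))) := by ring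
          _ = 4 * A * Real.exp 1 * M * (f * Real.exp (-(a / 2) * t)) := by rw [h11]
          _ ≤ 4 * A * Real.exp 1 * M *
              ((m + Real.exp (-(a * R / 8))) * Real.exp (-(a / 4) * t)) :=
              mul_le_mul_of_nonneg_left hfg (by positivity)
      -- the sum
      have hsum : M ≤ 4 * A * Real.exp 1 * M *
          ((m + Real.exp (-(a * R / 8))) * (K0 * (1 + R) ^ 2 * Kl)) := by
        have hmE : 0 ≤ m + Real.exp (-(a * R / 8)) := by
          have := Real.exp_pos (-(a * R / 8))
          linarith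
        calc M = uu Λ z c i p * Real.exp (b * dl Λ z hz p) := hM
          _ ≤ (∑ w ∈ ball p R, ∑ w' ∈ (ball p R)ᶜ,
              2 * (c (w, w') + c (w', w)) * (if tnorm (w - p) ≤ R / 2 then 1 else m) *
              uu Λ z c i w') * Real.exp (b * dl Λ z hz p) :=
              mul_le_mul_of_nonneg_right hexit (Real.exp_pos _).le
          _ = ∑ w ∈ ball p R, ∑ w' ∈ (ball p R)ᶜ,
              2 * (c (w, w') + c (w', w)) * (if tnorm (w - p) ≤ R / 2 then 1 else m) *
              uu Λ z c i w' * Real.exp (b * dl Λ z hz p) := by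
              rw [Finset.sum_mul]
              exact Finset.sum_congr rfl fun w _ => Finset.sum_mul _ _ _
          _ ≤ ∑ w ∈ ball p R, ∑ w' ∈ (ball p R)ᶜ,
              4 * A * Real.exp 1 * M * ((m + Real.exp (-(a * R / 8))) * g (w' - w)) :=
              Finset.sum_le_sum fun w hw => Finset.sum_le_sum fun w' hw' => hterm w hw w' hw'
          _ ≤ ∑ w ∈ ball p R,
              4 * A * Real.exp 1 * M * ((m + Real.exp (-(a * R / 8))) * Kl) := by
              refine Finset.sum_le_sum fun w _ => ?_
              rw [← Finset.mul_sum, ← Finset.mul_sum]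
              refine mul_le_mul_of_nonneg_left (mul_le_mul_of_nonneg_left ?_ hmE) (by positivity)
              calc ∑ w' ∈ (ball p R)ᶜ, g (w' - w) ≤ ∑ w' : Tor L, g (w' - w) :=
                    Finset.sum_le_univ_sum_of_nonneg fun w' => hg0 _
                _ = ∑ z : Tor L, g z := sum_shift g w
                _ ≤ Kl := hgsum
          _ = ((ball p R).card : ℝ) *
              (4 * A * Real.exp 1 * M * ((m + Real.exp (-(a * R / 8))) * Kl)) := by
              rw [Finset.sum_const, nsmul_eq_mul]
          _ ≤ (K0 * (1 + R) ^ 2) *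
              (4 * A * Real.exp 1 * M * ((m + Real.exp (-(a * R / 8))) * Kl)) := by
              refine mul_le_mul_of_nonneg_right (hK L p R hR0.le) (by positivity)
          _ = _ := by ring
      have hcoef : 4 * A * Real.exp 1 *
          ((m + Real.exp (-(a * R / 8))) * (K0 * (1 + R) ^ 2 * Kl)) ≤ 1 / 2 := by
        refine le_trans ?_ hR
        have hE := Real.exp_pos (-(a * R / 8))
        have h1 : (1 + R) ^ 2 ≤ 4 * R ^ 2 := by nlinarith
        have h2 : 4 * A * Real.exp 1 *
            ((m + Real.exp (-(a * R / 8))) * (K0 * (1 + R) ^ 2 * Kl)) ≤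
            4 * A * Real.exp 1 *
            ((m + Real.exp (-(a * R / 8))) * (K0 * (4 * R ^ 2) * Kl)) := by
          gcongr
        refine h2.trans (le_of_eq ?_)
        have h3 : m * R ^ 2 = 256 * C0 / R ^ 2 := by
          rw [hm]
          field_simp
          norm_num
        calc 4 * A * Real.exp 1 * ((m + Real.exp (-(a * R / 8))) * (K0 * (4 * R ^ 2) * Kl))
            = 16 * A * Real.exp 1 * K0 * Kl * (m * R ^ 2 + R ^ 2 * Real.exp (-(a * R / 8))) := by
              ring
          _ = _ := by rw [h3]
      have hfin : M ≤ 1 / 2 * M := by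
        calc M ≤ 4 * A * Real.exp 1 * M *
              ((m + Real.exp (-(a * R / 8))) * (K0 * (1 + R) ^ 2 * Kl)) := hsum
          _ = (4 * A * Real.exp 1 *
              ((m + Real.exp (-(a * R / 8))) * (K0 * (1 + R) ^ 2 * Kl))) * M := by ring
          _ ≤ 1 / 2 * M := mul_le_mul_of_nonneg_right hcoef hM0
      have := Real.exp_pos 1
      linarith
  intro x
  refine (hmax x).trans ?_
  rw [neg_mul]
  refine mul_le_mul_of_nonneg_right (hMe.trans ?_) (Real.exp_pos _).le
  exact Real.exp_le_exp.mpr (by norm_num)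


end Pool.Agent.Q218.ON
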