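import Pool.Agent.Q218.ON.WireAll
import Pool.Agent.Results.MP_8be4c0_mp.VectorChannel

/-!
# All local observables with constant boundary conditions: the bounds
-/

set_option autoImplicit false

noncomputable section

namespace Pool.Agent.Q218.ON

open MeasureTheory Pool.Agent.H5R2.ON Pool.Agent.H717R2.ON3 Pool.Agent.H983R2.ONJ
open Pool.Agent.H983R2

variable {N L : ℕ} [NeZero L] {Λ : Finset (Tor L)} {b : Tor L} {c : Tor L × Tor L → ℝ}

theorem Z_wire (hN : N ≠ 0) (hb : b ∉ Λ) {x : Tor L} (hx : x ∈ Λ) (e : Sph N) :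
    ∫ S : Conf N L, Real.exp (pS (wire Λ b c) S) ∂(prior N L) = Kc Λ c * Ph Λ c x 1 e := by
  have h2 := wire_num (c := c) hN hb hx 1 e
  simp only [sub_self, zero_mul, add_zero, one_mul] at h2
  exact h2

theorem Ph1_pos (hN : N ≠ 0) (x : Tor L) (e : Sph N) : 0 < Ph Λ c x 1 e := by
  haveI := prior_isProbabilityMeasure N L hN
  unfold Ph
  simp only [sub_self, zero_mul, add_zero, one_mul]
  exact integral_exp_pos (integrable_prior N L (Real.continuous_exp.comp
    ((continuous_pS c).comp (gib2_continuous_splice Λ _))))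

theorem P0_eq (hN : N ≠ 0) (hb : b ∉ Λ) {x : Tor L} (hx : x ∈ Λ) (i : Fin N) (e : Sph N) :
    Ph Λ c x 0 e = N * corJ (wire Λ b c) i x b * Ph Λ c x 1 e := by
  have h1 := bc_eq (c := c) hN hb hx e
  have h2 : gib (wire Λ b c) (fun S : Conf N L => inner ℝ (S x : EN N) (S b : EN N)) =
      N * corJ (wire Λ b c) i x b :=
    Pool.Agent.Results.MP_8be4c0_mp.VectorChannel.two_eq hN (wire Λ b c) i x b
  have h3 := wire_num (c := c) hN hb hx 0 e
  have h4 := Z_wire (c := c) hN hb hx e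
  simp only [zero_add, sub_zero, one_mul] at h3
  have hK : 0 < Kc Λ c := Real.exp_pos _
  have hP := Ph1_pos (Λ := Λ) (c := c) hN x e
  rw [← h2]
  unfold gib
  rw [h3, h4]
  unfold Kc at hK ⊢
  field_simp

open Classical in
/-- the sign of the component at `b` -/
theorem sg_bound (hN : N ≠ 0) (hc : ∀ e, 0 ≤ c e) (hb : b ∉ Λ) {w : Tor L} (hw : w ∈ Λ)
    (i : Fin N) {v : EN N} (hv : ‖v‖ = 1) {φ : Sph N → ℝ} (hφ : Measurable φ) {B : ℝ}
    (hB : ∀ s, |φ s| ≤ B) (hφ0 : ∀ s, 0 ≤ φ s) :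
    (sysV hN (wire_nonneg (Λ := Λ) (b := b) hc) hv).I (fun s => ax v (s w) *
      (FK.Sys.sg (ax v (s b)) * φ (s b))) ≤
    N * corJ (wire Λ b c) i w b *
      (sysV hN (wire_nonneg (Λ := Λ) (b := b) hc) hv).I (fun s => φ (s b)) := by
  haveI := prior_isProbabilityMeasure N L hN
  rw [IV_eq, IV_eq]
  obtain ⟨e⟩ : Nonempty (Sph N) := by
    haveI := unif_isProbabilityMeasure N hN
    exact nonempty_of_isProbabilityMeasure (unif N)
  have hsgm : Measurable fun s : Sph N => FK.Sys.sg (ax v s) * φ s :=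
    (FK.Sys.meas_sg.comp (continuous_ax v).measurable).mul hφ
  have hsgb : ∀ s : Sph N, |FK.Sys.sg (ax v s) * φ s| ≤ 1 * B := by
    intro s
    rw [abs_mul]
    exact mul_le_mul (FK.Sys.sg_abs_le _) (hB s) (abs_nonneg _) zero_le_one
  have h1 := wire_res (c := c) hN hb (F := fun S : Conf N L => ax v (S w))
    ((continuous_ax v).measurable.comp (measurable_pi_apply w)) (B := 1)
    (fun S => abs_ax_le hv _) (fun S S' hS => by
      have := hS w hw
      simp only [this]) hsgm hsgb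
  have h2 := wire_res (c := c) hN hb (F := fun _ : Conf N L => (1 : ℝ))
    measurable_const (B := 1) (fun S => by simp) (fun S S' hS => rfl) hφ hB
  have h3 : ∀ S : Conf N L, ax v (S w) * (FK.Sys.sg (ax v (S b)) * φ (S b)) *
      Real.exp (pS (wire Λ b c) S) = ax v (S w) * (FK.Sys.sg (ax v (S b)) * φ (S b)) *
      Real.exp (pS (wire Λ b c) S) := fun S => rfl
  rw [h1]
  have h4 : ∫ S : Conf N L, φ (S b) * Real.exp (pS (wire Λ b c) S) ∂(prior N L) =
      Kc Λ c * ∫ S : Conf N L, φ (S b) * PF Λ c (fun _ => (1 : ℝ)) (S b) ∂(prior N L) := by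
    rw [← h2]
    refine integral_congr_ae (Filter.Eventually.of_forall fun S => ?_)
    simp only
    rw [one_mul]
  rw [h4]
  have hPF1 : ∀ s : Sph N, PF Λ c (fun _ : Conf N L => (1 : ℝ)) s = Ph Λ c w 1 e := by
    intro s
    rw [← Ph_const hN w 1 s e]
    unfold PF Ph
    refine integral_congr_ae (Filter.Eventually.of_forall fun S => ?_)
    simp
  have hP0 : ∀ s : Sph N, PF Λ c (fun S : Conf N L => ax v (S w)) s =
      ax v s * Ph Λ c w 0 e := by
    intro s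
    rw [PF_ax hN, Ph_const hN w 0 s e]
  simp only [hPF1, hP0]
  have hK : 0 < Kc Λ c := Real.exp_pos _
  have hμ := corJ_nonneg hN (wire_nonneg (Λ := Λ) (b := b) hc) i w b
  have hP1 := Ph1_pos (Λ := Λ) (c := c) hN w e
  have hP0n : 0 ≤ Ph Λ c w 0 e := by
    rw [P0_eq hN hb hw i e]
    have : (0 : ℝ) ≤ N := Nat.cast_nonneg N
    positivity
  have hφm : Measurable fun S : Conf N L => φ (S b) := hφ.comp (measurable_pi_apply b)
  have hi1 : Integrable (fun S : Conf N L => φ (S b)) (prior N L) :=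
    gib2_integrable hφm B fun S => hB _
  have h5 : ∫ S : Conf N L, FK.Sys.sg (ax v (S b)) * φ (S b) * (ax v (S b) * Ph Λ c w 0 e)
      ∂(prior N L) ≤ ∫ S : Conf N L, φ (S b) * Ph Λ c w 0 e ∂(prior N L) := by
    refine integral_mono ?_ (hi1.mul_const _) fun S => ?_
    · refine gib2_integrable (((FK.Sys.meas_sg.comp ((continuous_ax v).measurable.comp
        (measurable_pi_apply b))).mul hφm).mul (((continuous_ax v).measurable.comp
        (measurable_pi_apply b)).mul measurable_const)) (1 * B * (1 * |Ph Λ c w 0 e|)) fun S => ?_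
      rw [abs_mul, abs_mul, abs_mul]
      have h6 := (abs_nonneg _).trans (hB (S b))
      exact mul_le_mul (mul_le_mul (FK.Sys.sg_abs_le _) (hB _) (abs_nonneg _) zero_le_one)
        (mul_le_mul (abs_ax_le hv _) le_rfl (abs_nonneg _) zero_le_one)
        (mul_nonneg (abs_nonneg _) (abs_nonneg _)) (by positivity)
    · have h6 : FK.Sys.sg (ax v (S b)) * φ (S b) * (ax v (S b) * Ph Λ c w 0 e) =
          |ax v (S b)| * (φ (S b) * Ph Λ c w 0 e) := by
        rw [← FK.Sys.mul_sg_self]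
        ring
      simp only
      rw [h6]
      exact mul_le_of_le_one_left (mul_nonneg (hφ0 _) hP0n) (abs_ax_le hv _)
  refine (mul_le_mul_of_nonneg_left h5 hK.le).trans (le_of_eq ?_)
  rw [integral_mul_const, integral_mul_const, P0_eq hN hb hw i e]
  ring

/-- the sum -/
def eps (N : ℕ) (Λ : Finset (Tor L)) (b : Tor L) (c : Tor L × Tor L → ℝ) (i : Fin N)
    (x : Tor L) : ℝ := N * ∑ w : Tor L, kap c x w * uu Λ b c i w

theorem eps_nonneg (hN : N ≠ 0) (hc : ∀ e, 0 ≤ c e) (i : Fin N) (x : Tor L) :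
    0 ≤ eps N Λ b c i x :=
  mul_nonneg (Nat.cast_nonneg N) (Finset.sum_nonneg fun w _ =>
    mul_nonneg (kap_nonneg hc x w) (uu_nonneg hN hc i w))

theorem conn_wire (hN : N ≠ 0) (hc : ∀ e, 0 ≤ c e) (hb : b ∉ Λ) {x : Tor L} (hx : x ∈ Λ)
    (i : Fin N) {v : EN N} (hv : ‖v‖ = 1) {φ : Sph N → ℝ} (hφ : Measurable φ) {B : ℝ}
    (hB : ∀ s, |φ s| ≤ B) (hφ0 : ∀ s, 0 ≤ φ s) :
    Ga (sysV hN (wire_nonneg (Λ := Λ) (b := b) hc) hv) (fun s => φ (s b)) x b ≤
      eps N Λ b c i x *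
        (sysV hN (wire_nonneg (Λ := Λ) (b := b) hc) hv).I (fun s => φ (s b)) := by
  classical
  set D := sysV hN (wire_nonneg (Λ := Λ) (b := b) hc) hv with hD
  have hBM : FK.Sys.BM fun s : Conf N L => φ (s b) :=
    ⟨hφ.comp (measurable_pi_apply b), B, fun s => hB _⟩
  have hI0 : 0 ≤ D.I (fun s => φ (s b)) :=
    integral_nonneg fun s => mul_nonneg (hφ0 _) (D.wt_nonneg s)
  have hN1 : (1 : ℝ) ≤ N := by exact_mod_cast Nat.pos_of_ne_zero hN
  have hxb : x ≠ b := fun h => hb (h ▸ hx)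
  have hle : ∀ w : Tor L, D.I (fun s => D.a (s w) * (FK.Sys.sg (D.a (s b)) * φ (s b))) ≤
      D.I (fun s => φ (s b)) := by
    intro w
    refine D.I_mono ((D.BM_a w).mul ((D.BM_sg b).mul hBM)) hBM fun s => ?_
    have h1 : |D.a (s w) * (FK.Sys.sg (D.a (s b)) * φ (s b))| ≤ φ (s b) := by
      rw [abs_mul, abs_mul, abs_of_nonneg (hφ0 (s b))]
      have h2 := D.a1 (s w)
      have h3 := FK.Sys.sg_abs_le (D.a (s b))
      have h4 := hφ0 (s b)
      calc |D.a (s w)| * (|FK.Sys.sg (D.a (s b))| * φ (s b)) ≤ 1 * (1 * φ (s b)) :=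
            mul_le_mul h2 (mul_le_mul_of_nonneg_right h3 h4)
              (mul_nonneg (abs_nonneg _) h4) zero_le_one
        _ = φ (s b) := by ring
    exact (le_abs_self _).trans h1
  have h := Ga_b D hxb hBM (fun s => hφ0 _) (fun s s' hs => by
      simp only [hs]) (fun w => N * uu Λ b c i w * D.I (fun s => φ (s b)))
    (by
      unfold uu
      rw [if_neg hb, mul_one]
      exact le_mul_of_one_le_left hI0 hN1)
    (fun w hwb => by
      by_cases hw : w ∈ Λ
      · unfold uu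
        rw [if_pos hw]
        exact sg_bound hN hc hb hw i hv hφ hB hφ0
      · unfold uu
        rw [if_neg hw, mul_one]
        exact (hle w).trans (le_mul_of_one_le_left hI0 hN1))
    (fun w => mul_nonneg (mul_nonneg (Nat.cast_nonneg N) (uu_nonneg hN hc i w)) hI0)
  refine h.trans (le_of_eq ?_)
  have hk : D.k = wire Λ b c := rfl
  rw [hk]
  unfold eps
  rw [← Finset.sum_add_sum_compl Λ, ← Finset.sum_add_sum_compl Λ (fun w => kap c x w *
    uu Λ b c i w)]
  have h1 : ∑ w ∈ Λ, 2 * (wire Λ b c (x, w) + wire Λ b c (w, x)) *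
      (N * uu Λ b c i w * D.I (fun s => φ (s b))) =
      N * (∑ w ∈ Λ, kap c x w * uu Λ b c i w) * D.I (fun s => φ (s b)) := by
    rw [Finset.mul_sum, Finset.sum_mul]
    refine Finset.sum_congr rfl fun w hw => ?_
    rw [wire_in hx hw, wire_in hw hx]
    unfold kap
    ring
  have h2 : ∑ w ∈ Λᶜ, 2 * (wire Λ b c (x, w) + wire Λ b c (w, x)) *
      (N * uu Λ b c i w * D.I (fun s => φ (s b))) =
      N * (∑ w ∈ Λᶜ, kap c x w * uu Λ b c i w) * D.I (fun s => φ (s b)) := by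
    have h3 : ∀ w ∈ Λᶜ, 2 * (wire Λ b c (x, w) + wire Λ b c (w, x)) *
        (N * uu Λ b c i w * D.I (fun s => φ (s b))) = if w = b then
        2 * (∑ z ∈ Λᶜ, (c (x, z) + c (z, x))) * (N * D.I (fun s => φ (s b))) else 0 := by
      intro w hw
      rw [wire_bd hx (Finset.mem_compl.1 hw), wire_out (Finset.mem_compl.1 hw), add_zero]
      unfold uu
      rw [if_neg (Finset.mem_compl.1 hw)]
      split_ifs
      · ring
      · ring
    rw [Finset.sum_congr rfl h3, Finset.sum_ite_eq' Λᶜ b, if_pos (Finset.mem_compl.2 hb)]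
    have h4 : ∑ w ∈ Λᶜ, kap c x w * uu Λ b c i w = 2 * ∑ z ∈ Λᶜ, (c (x, z) + c (z, x)) := by
      rw [Finset.mul_sum]
      refine Finset.sum_congr rfl fun w hw => ?_
      unfold uu kap
      rw [if_neg (Finset.mem_compl.1 hw), mul_one]
    rw [h4]
    ring
  rw [h1, h2]
  ring

/-- weighted integral -/
def JJw (Λ : Finset (Tor L)) (b : Tor L) (c : Tor L × Tor L → ℝ) (φ : Sph N → ℝ)
    (F : Conf N L → ℝ) : ℝ :=
  ∫ S : Conf N L, F S * φ (S b) * Real.exp (pS (wire Λ b c) S) ∂(prior N L)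

theorem ref_wire (hN : N ≠ 0) (hc : ∀ e, 0 ≤ c e) (hb : b ∉ Λ) (i : Fin N)
    {X : Finset (Tor L)} (hX : X ⊆ Λ) {F : Conf N L → ℝ} (hF : Measurable F)
    (hF1 : ∀ S, |F S| ≤ 1) (hFX : DependsOn F (X : Set (Tor L)))
    {φ : Sph N → ℝ} (hφ : Measurable φ) {B : ℝ} (hB : ∀ s, |φ s| ≤ B) (hφ0 : ∀ s, 0 ≤ φ s)
    (v : EN N) :
    |JJw Λ b c φ (fun S => F (rotC (rho v) S)) - JJw Λ b c φ F| ≤
      (2 * ∑ x ∈ X, eps N Λ b c i x) * JJw Λ b c φ (fun _ => 1) := by
  have hJ0 : 0 ≤ JJw Λ b c φ (fun _ : Conf N L => 1) :=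
    integral_nonneg fun S => mul_nonneg (mul_nonneg zero_le_one (hφ0 _)) (Real.exp_pos _).le
  have hE0 : 0 ≤ ∑ x ∈ X, eps N Λ b c i x := Finset.sum_nonneg fun x _ => eps_nonneg hN hc i x
  by_cases hv0 : v = 0
  · subst hv0
    simp only [rotC_rho_zero, sub_self, abs_zero]
    exact mul_nonneg (mul_nonneg (by norm_num) hE0) hJ0
  rw [rho_smul hv0]
  obtain ⟨u, hu⟩ : ∃ u : EN N, u = ‖v‖⁻¹ • v := ⟨_, rfl⟩
  have hu1 : ‖u‖ = 1 := by
    rw [hu, norm_smul, norm_inv, norm_norm, inv_mul_cancel₀ (norm_ne_zero_iff.2 hv0)]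
  rw [← hu]
  set D := sysV hN (wire_nonneg (Λ := Λ) (b := b) hc) hu1 with hD
  have hBM : FK.Sys.BM fun s : Conf N L => φ (s b) :=
    ⟨hφ.comp (measurable_pi_apply b), B, fun s => hB _⟩
  have hdec := decouple2 D X b (F := F) ⟨hF, 1, hF1⟩ hBM hF1 (fun s => hφ0 _)
    (fun s s' hs => hFX fun x hx => hs x hx) (fun s s' hs => by simp only [hs])
  have hflip : ∀ S : Conf N L, F (D.flip X S) = F (rotC (rho u) S) := by
    intro S
    refine hFX fun x hx => ?_
    have hx' : x ∈ X := hx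
    unfold FK.Sys.flip rotC
    rw [if_pos hx']
    rfl
  simp only [hflip] at hdec
  have hI1 : D.I (fun s => φ (s b)) = JJw Λ b c φ (fun _ => 1) := by
    rw [hD, IV_eq]
    unfold JJw
    simp only [one_mul]
  have hsum : ∑ x ∈ X, Ga D (fun s => φ (s b)) x b ≤
      (∑ x ∈ X, eps N Λ b c i x) * JJw Λ b c φ (fun _ => 1) := by
    rw [Finset.sum_mul]
    refine Finset.sum_le_sum fun x hx => ?_
    rw [← hI1]
    exact conn_wire hN hc hb (hX hx) i hu1 hφ hB hφ0
  rw [hD, IV_eq, IV_eq, ← hD] at hdec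
  unfold JJw at hsum ⊢
  refine hdec.trans ?_
  rw [mul_assoc]
  exact mul_le_mul_of_nonneg_left hsum (by norm_num)

theorem list_wire (hN : N ≠ 0) (hc : ∀ e, 0 ≤ c e) (hb : b ∉ Λ) (i : Fin N)
    {X : Finset (Tor L)} (hX : X ⊆ Λ)
    {φ : Sph N → ℝ} (hφ : Measurable φ) {B : ℝ} (hB : ∀ s, |φ s| ≤ B) (hφ0 : ∀ s, 0 ≤ φ s) :
    ∀ (l : List (EN N)) (F : Conf N L → ℝ), Measurable F → (∀ S, |F S| ≤ 1) →
      DependsOn F (X : Set (Tor L)) →
    |JJw Λ b c φ (fun S => F (rotC (l.map rho).prod S)) - JJw Λ b c φ F| ≤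
      l.length * ((2 * ∑ x ∈ X, eps N Λ b c i x) * JJw Λ b c φ (fun _ => 1)) := by
  intro l
  induction l with
  | nil =>
    intro F _ _ _
    simp [rotC_one]
  | cons v l ih =>
    intro F hF hF1 hFX
    have hF' : Measurable fun S => F (rotC (rho v) S) := hF.comp (meas_rotC _)
    have h1 := ih (fun S => F (rotC (rho v) S)) hF' (fun S => hF1 _) (fun S S' hS => by
      refine hFX fun x hx => ?_
      unfold rotC
      rw [hS x hx])
    have h2 := ref_wire hN hc hb i hX hF hF1 hFX hφ hB hφ0 v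
    have h3 : ∀ S : Conf N L, rotC ((v :: l).map rho).prod S =
        rotC (rho v) (rotC (l.map rho).prod S) := by
      intro S
      rw [List.map_cons, List.prod_cons, rotC_mul]
    simp only [h3]
    have h4 : ((v :: l).length : ℝ) * ((2 * ∑ x ∈ X, eps N Λ b c i x) *
        JJw Λ b c φ (fun _ => 1)) =
        l.length * ((2 * ∑ x ∈ X, eps N Λ b c i x) * JJw Λ b c φ (fun _ => 1)) +
        (2 * ∑ x ∈ X, eps N Λ b c i x) * JJw Λ b c φ (fun _ => 1) := by
      rw [List.length_cons]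
      push_cast
      ring
    rw [h4]
    exact (abs_sub_le _ _ _).trans (add_le_add h1 h2)

theorem rot_wire (hN : N ≠ 0) (hc : ∀ e, 0 ≤ c e) (hb : b ∉ Λ) (i : Fin N)
    {X : Finset (Tor L)} (hX : X ⊆ Λ) {F : Conf N L → ℝ} (hF : Measurable F)
    (hF1 : ∀ S, |F S| ≤ 1) (hFX : DependsOn F (X : Set (Tor L)))
    {φ : Sph N → ℝ} (hφ : Measurable φ) {B : ℝ} (hB : ∀ s, |φ s| ≤ B) (hφ0 : ∀ s, 0 ≤ φ s)
    (Q : EN N ≃ₗᵢ[ℝ] EN N) :
    |JJw Λ b c φ (fun S => F (rotC Q S)) - JJw Λ b c φ F| ≤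
      N * ((2 * ∑ x ∈ X, eps N Λ b c i x) * JJw Λ b c φ (fun _ => 1)) := by
  have hJ0 : 0 ≤ JJw Λ b c φ (fun _ : Conf N L => 1) :=
    integral_nonneg fun S => mul_nonneg (mul_nonneg zero_le_one (hφ0 _)) (Real.exp_pos _).le
  have hE0 : 0 ≤ ∑ x ∈ X, eps N Λ b c i x := Finset.sum_nonneg fun x _ => eps_nonneg hN hc i x
  obtain ⟨l, hl, hQ⟩ := LinearIsometryEquiv.reflections_generate_dim Q
  have h1 := list_wire hN hc hb i hX hφ hB hφ0 l F hF hF1 hFX
  have h2 : Q = (l.map rho).prod := hQ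
  rw [h2]
  refine h1.trans ?_
  rw [finrank_euclideanSpace_fin] at hl
  have h3 : (l.length : ℝ) ≤ N := by exact_mod_cast hl
  exact mul_le_mul_of_nonneg_right h3 (mul_nonneg (mul_nonneg (by norm_num) hE0) hJ0)

end Pool.Agent.Q218.ON
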