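import Pool.Agent.Q218.ON.WireFin

/-!
# Pointwise bounds for constant boundary conditions
-/

set_option autoImplicit false

noncomputable section

namespace Pool.Agent.Q218.ON

open MeasureTheory Pool.Agent.H5R2.ON Pool.Agent.H717R2.ON3 Pool.Agent.H983R2.ONJ
open Pool.Agent.H983R2

theorem unif_pos {N : ℕ} (hN : N ≠ 0) {U : Set (Sph N)} (hU : IsOpen U) (hne : U.Nonempty) :
    0 < unif N U := by
  haveI : NeZero N := ⟨hN⟩
  unfold unif
  rw [Measure.smul_apply, smul_eq_mul]
  refine pos_iff_ne_zero.2 (mul_ne_zero ?_ ?_)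
  · exact ENNReal.inv_ne_zero.2 (measure_ne_top _ _)
  · exact (hU.measure_pos _ hne).ne'

variable {N L : ℕ} [NeZero L] {Λ : Finset (Tor L)} {b : Tor L} {c : Tor L × Tor L → ℝ}

theorem cont_PF (hN : N ≠ 0) {F : Conf N L → ℝ} (hF : Measurable F) (hF1 : ∀ S, |F S| ≤ 1) :
    Continuous (PF Λ c F) := by
  haveI := prior_isProbabilityMeasure N L hN
  have hE : Continuous fun S : Conf N L => Real.exp (pS c S) :=
    Real.continuous_exp.comp (continuous_pS c)
  obtain ⟨B, hB⟩ := Aux269.bdd_of_continuous hE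
  unfold PF
  refine continuous_of_dominated (bound := fun _ => 1 * B) ?_ ?_ (integrable_const _) ?_
  · intro s
    exact (hF.mul (hE.comp (gib2_continuous_splice Λ _)).measurable).aestronglyMeasurable
  · intro s
    refine Filter.Eventually.of_forall fun S => ?_
    rw [Real.norm_eq_abs, abs_mul]
    exact mul_le_mul (hF1 S) (hB _) (abs_nonneg _) zero_le_one
  · refine Filter.Eventually.of_forall fun S => ?_
    refine continuous_const.mul (hE.comp ?_)
    refine continuous_pi fun x => ?_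
    unfold splice
    by_cases hx : x ∈ Λ
    · simp only [hx, if_true]
      exact continuous_const
    · simp only [hx, if_false]
      exact continuous_id

theorem pt_aux (hN : N ≠ 0) (hc : ∀ e, 0 ≤ c e) (hb : b ∉ Λ) (i : Fin N)
    {X : Finset (Tor L)} (hX : X ⊆ Λ) {F : Conf N L → ℝ} (hF : Measurable F)
    (hF1 : ∀ S, |F S| ≤ 1) (hFX : DependsOn F (X : Set (Tor L)))
    (Q : EN N ≃ₗᵢ[ℝ] EN N) (s0 : Sph N) :
    PF Λ c (fun S => F (rotC Q S)) s0 - PF Λ c F s0 ≤
      N * (2 * ∑ x ∈ X, eps N Λ b c i x) * PF Λ c (fun _ : Conf N L => 1) s0 := by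
  classical
  haveI := prior_isProbabilityMeasure N L hN
  have hPF1 : ∀ s : Sph N, PF Λ c (fun _ : Conf N L => (1 : ℝ)) s =
      PF Λ c (fun _ : Conf N L => (1 : ℝ)) s0 := by
    intro s
    have h : ∀ s : Sph N, PF Λ c (fun _ : Conf N L => (1 : ℝ)) s = Ph Λ c b 1 s := by
      intro s
      unfold PF Ph
      refine integral_congr_ae (Filter.Eventually.of_forall fun S => ?_)
      simp
    rw [h, h, Ph_const hN b 1 s s0]
  obtain ⟨P1, hP1⟩ : ∃ P1 : ℝ, P1 = PF Λ c (fun _ : Conf N L => (1 : ℝ)) s0 := ⟨_, rfl⟩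
  rw [← hP1]
  simp only [← hP1] at hPF1
  obtain ⟨T, hT⟩ : ∃ T : ℝ, T = N * (2 * ∑ x ∈ X, eps N Λ b c i x) := ⟨_, rfl⟩
  rw [← hT]
  by_contra hcon
  push Not at hcon
  have hF' : Measurable fun S => F (rotC Q S) := hF.comp (meas_rotC _)
  have hFX' : DependsOn (fun S => F (rotC Q S)) (X : Set (Tor L)) := fun S S' hS => by
    refine hFX fun x hx => ?_
    unfold rotC
    rw [hS x hx]
  have hcH : Continuous fun s : Sph N => PF Λ c (fun S => F (rotC Q S)) s - PF Λ c F s :=
    (cont_PF hN hF' fun S => hF1 _).sub (cont_PF hN hF hF1)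
  obtain ⟨H, hH⟩ : ∃ H : Sph N → ℝ, H = fun s : Sph N =>
    PF Λ c (fun S => F (rotC Q S)) s - PF Λ c F s := ⟨_, rfl⟩
  rw [← hH] at hcH
  have hs0 : T * P1 < H s0 := by rw [hH]; exact hcon
  set U : Set (Sph N) := {s | T * P1 < H s} with hU
  have hUo : IsOpen U := isOpen_lt continuous_const hcH
  have hUne : U.Nonempty := ⟨s0, hs0⟩
  set φ : Sph N → ℝ := fun s => if s ∈ U then 1 else 0 with hφ
  have hφm : Measurable φ := Measurable.ite hUo.measurableSet measurable_const measurable_const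
  have hφ0 : ∀ s, 0 ≤ φ s := fun s => by
    simp only [hφ]
    split_ifs <;> norm_num
  have hφB : ∀ s, |φ s| ≤ 1 := fun s => by
    simp only [hφ]
    split_ifs <;> simp
  have hXΛ : ∀ {G : Conf N L → ℝ}, DependsOn G (X : Set (Tor L)) →
      DependsOn G (Λ : Set (Tor L)) := fun hG S S' hS => hG fun x hx => hS x (hX hx)
  have h1 := rot_wire hN hc hb i hX hF hF1 hFX hφm hφB hφ0 Q
  have e1 : JJw Λ b c φ (fun S => F (rotC Q S)) = Kc Λ c * ∫ S : Conf N L, φ (S b) *
      PF Λ c (fun S => F (rotC Q S)) (S b) ∂(prior N L) :=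
    wire_res hN hb hF' (B := 1) (fun S => hF1 _) (hXΛ hFX') hφm hφB
  have e2 : JJw Λ b c φ F = Kc Λ c * ∫ S : Conf N L, φ (S b) *
      PF Λ c F (S b) ∂(prior N L) :=
    wire_res hN hb hF (B := 1) hF1 (hXΛ hFX) hφm hφB
  have e3 : JJw Λ b c φ (fun _ => 1) = Kc Λ c * ∫ S : Conf N L, φ (S b) *
      PF Λ c (fun _ : Conf N L => (1 : ℝ)) (S b) ∂(prior N L) :=
    wire_res hN hb measurable_const (B := 1) (fun S => by simp) (fun S S' hS => rfl) hφm hφB
  simp only [hPF1] at e3
  have hK : 0 < Kc Λ c := Real.exp_pos _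
  -- integrability
  have hφSm : Measurable fun S : Conf N L => φ (S b) := hφm.comp (measurable_pi_apply b)
  have hint : ∀ {G : Sph N → ℝ}, Continuous G →
      Integrable (fun S : Conf N L => φ (S b) * G (S b)) (prior N L) := by
    intro G hG
    obtain ⟨B, hB⟩ := isCompact_univ.exists_bound_of_continuousOn (f := G) hG.continuousOn
    refine gib2_integrable (hφSm.mul (hG.measurable.comp (measurable_pi_apply b))) (1 * B)
      fun S => ?_
    rw [abs_mul]
    exact mul_le_mul (hφB _) (by rw [← Real.norm_eq_abs]; exact hB _ (Set.mem_univ _))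
      (abs_nonneg _) zero_le_one
  have hi1 := hint (cont_PF (Λ := Λ) (c := c) hN hF' fun S => hF1 _)
  have hi2 := hint (cont_PF (Λ := Λ) (c := c) hN hF hF1)
  have hi3 : Integrable (fun S : Conf N L => φ (S b) * P1) (prior N L) :=
    hint (G := fun _ => P1) continuous_const
  have h2 : ∫ S : Conf N L, φ (S b) * (H (S b) - T * P1) ∂(prior N L) ≤ 0 := by
    have h3 := (le_abs_self _).trans h1
    rw [e1, e2, e3, ← mul_sub, ← integral_sub hi1 hi2, ← mul_assoc] at h3
    have h4 : ∫ S : Conf N L, (φ (S b) * PF Λ c (fun S => F (rotC Q S)) (S b) -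
        φ (S b) * PF Λ c F (S b)) ∂(prior N L) ≤ T * ∫ S : Conf N L, φ (S b) * P1
        ∂(prior N L) := by
      rw [hT]
      have h5 : Kc Λ c * ∫ S : Conf N L, (φ (S b) * PF Λ c (fun S => F (rotC Q S)) (S b) -
          φ (S b) * PF Λ c F (S b)) ∂(prior N L) ≤ Kc Λ c *
          (N * (2 * ∑ x ∈ X, eps N Λ b c i x) * ∫ S : Conf N L, φ (S b) * P1
            ∂(prior N L)) := by
        refine h3.trans (le_of_eq ?_)
        ring
      exact le_of_mul_le_mul_left h5 hK
    have h6 : ∫ S : Conf N L, φ (S b) * (H (S b) - T * P1) ∂(prior N L) =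
        (∫ S : Conf N L, (φ (S b) * PF Λ c (fun S => F (rotC Q S)) (S b) -
        φ (S b) * PF Λ c F (S b)) ∂(prior N L)) - T * ∫ S : Conf N L, φ (S b) * P1
        ∂(prior N L) := by
      have hi12 : Integrable (fun S : Conf N L =>
          φ (S b) * PF Λ c (fun S => F (rotC Q S)) (S b) - φ (S b) * PF Λ c F (S b))
          (prior N L) := hi1.sub hi2
      rw [← integral_const_mul, ← integral_sub hi12 (hi3.const_mul T)]
      refine integral_congr_ae (Filter.Eventually.of_forall fun S => ?_)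
      simp only [hH]
      ring
    rw [h6]
    linarith
  have hg0 : ∀ S : Conf N L, 0 ≤ φ (S b) * (H (S b) - T * P1) := by
    intro S
    simp only [hφ]
    split_ifs with h
    · rw [one_mul]
      have h' : T * P1 < H (S b) := h
      linarith
    · rw [zero_mul]
  have hgi : Integrable (fun S : Conf N L => φ (S b) * (H (S b) - T * P1)) (prior N L) :=
    hint (G := fun s => H s - T * P1) (hcH.sub continuous_const)
  have h7 := (integral_eq_zero_iff_of_nonneg hg0 hgi).1
    (le_antisymm h2 (integral_nonneg hg0))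
  have h8 : (prior N L) {S : Conf N L | S b ∈ U} = 0 := by
    have h9 : {S : Conf N L | S b ∈ U} ⊆
        {S : Conf N L | ¬ (φ (S b) * (H (S b) - T * P1) = (0 : Conf N L → ℝ) S)} := by
      intro S hS
      have hS' : T * P1 < H (S b) := hS
      have h10 : φ (S b) = 1 := by
        simp only [hφ]
        exact if_pos hS
      simp only [Set.mem_setOf_eq, h10, one_mul, Pi.zero_apply]
      linarith
    exact measure_mono_null h9 h7
  have h11 : (prior N L) {S : Conf N L | S b ∈ U} = unif N U := by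
    haveI := unif_isProbabilityMeasure N hN
    have h12 := (measurePreserving_eval (fun _ : Tor L => unif N) b).measure_preimage
      hUo.measurableSet.nullMeasurableSet
    exact h12
  rw [h11] at h8
  exact (unif_pos hN hUo hUne).ne' h8

theorem pt_bound (hN : N ≠ 0) (hc : ∀ e, 0 ≤ c e) (hb : b ∉ Λ) (i : Fin N)
    {X : Finset (Tor L)} (hX : X ⊆ Λ) {F : Conf N L → ℝ} (hF : Measurable F)
    (hF1 : ∀ S, |F S| ≤ 1) (hFX : DependsOn F (X : Set (Tor L)))
    (Q : EN N ≃ₗᵢ[ℝ] EN N) (s0 : Sph N) :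
    |PF Λ c (fun S => F (rotC Q S)) s0 - PF Λ c F s0| ≤
      N * (2 * ∑ x ∈ X, eps N Λ b c i x) * PF Λ c (fun _ : Conf N L => 1) s0 := by
  rw [abs_le]
  refine ⟨?_, pt_aux hN hc hb i hX hF hF1 hFX Q s0⟩
  have h := pt_aux (b := b) hN hc hb i hX (F := fun S => -F S) hF.neg
    (fun S => by rw [abs_neg]; exact hF1 S)
    (fun S S' hS => by
      have := hFX hS
      simp only [this]) Q s0
  have hneg : ∀ G : Conf N L → ℝ, PF Λ c (fun S => -G S) s0 = -PF Λ c G s0 := by
    intro G
    unfold PF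
    rw [← integral_neg]
    refine integral_congr_ae (Filter.Eventually.of_forall fun S => ?_)
    simp only
    ring
  rw [hneg, hneg] at h
  linarith

/-- decay of `eps` -/
theorem eps_decay (N : ℕ) (hN : 3 ≤ N) (A a : ℝ) (hA : 0 ≤ A) (ha : 0 < a) :
    ∃ C m : ℝ, 0 < C ∧ 0 < m ∧ ∀ (L : ℕ) [NeZero L] (c : Tor L × Tor L → ℝ), ExpC A a c →
      ∀ (i : Fin N) (Λ : Finset (Tor L)) (z : Tor L) (hz : z ∉ Λ) (x : Tor L),
        eps N Λ z c i x ≤ C * Real.exp (-m * dl Λ z hz x) := by
  obtain ⟨C, m0, hC, hm0, h⟩ := wire_decay N hN A a hA ha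
  obtain ⟨Kl, hKl0, hKl⟩ := lsum (a / 4) (by positivity)
  obtain ⟨m, hm⟩ : ∃ m : ℝ, m = min (a / 2) m0 := ⟨_, rfl⟩
  have hmp : 0 < m := by rw [hm]; exact lt_min (by positivity) hm0
  have hma : m ≤ a / 2 := by rw [hm]; exact min_le_left _ _
  have hmb : m ≤ m0 := by rw [hm]; exact min_le_right _ _
  refine ⟨1 + N * (4 * A * C * Kl), m, by positivity, hmp, ?_⟩
  intro L _ c hcE i Λ z hz x
  have hN0 : N ≠ 0 := by omega
  have hc : ∀ e, 0 ≤ c e := fun e => (hcE e).1
  obtain ⟨T, hT⟩ : ∃ T : ℝ, T = Real.exp (-m * dl Λ z hz x) := ⟨_, rfl⟩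
  have hT0 : 0 < T := by rw [hT]; exact Real.exp_pos _
  rw [← hT]
  set g : Tor L → ℝ := fun z => Real.exp (-(a / 4) * tnorm z) with hg
  have hg0 : ∀ z, 0 ≤ g z := fun z => (Real.exp_pos _).le
  have hgsum : ∑ z : Tor L, g z ≤ Kl := by
    refine (Finset.sum_le_sum fun z _ => ?_).trans (hKl L)
    simp only [hg]
    have h1 : (1 : ℝ) ≤ (1 + tnorm z) ^ 2 := by
      have := tnorm_nonneg z
      nlinarith
    have h2 := Real.exp_pos (-(a / 4) * tnorm z)
    nlinarith
  have hk : ∀ u w : Tor L, kap c u w ≤ 4 * A * Real.exp (-a * tnorm (w - u)) := by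
    intro u w
    have h1 : c (u, w) ≤ A * Real.exp (-a * tnorm (w - u)) := (hcE (u, w)).2
    have h2 : c (w, u) ≤ A * Real.exp (-a * tnorm (u - w)) := (hcE (w, u)).2
    rw [tnorm_sub_comm u w] at h2
    unfold kap
    linarith
  have hterm : ∀ w : Tor L, kap c x w * uu Λ z c i w ≤ 4 * A * C * T * g (w - x) := by
    intro w
    have h1 := hk x w
    have h2 := h L c hcE i Λ z hz w
    have h3 := uu_nonneg (Λ := Λ) (b := z) hN0 hc i w
    have h4 : kap c x w * uu Λ z c i w ≤ (4 * A * Real.exp (-a * tnorm (w - x))) *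
        (C * Real.exp (-m0 * dl Λ z hz w)) := mul_le_mul h1 h2 h3 (by positivity)
    refine h4.trans ?_
    have h6 : Real.exp (-a * tnorm (w - x)) * Real.exp (-m0 * dl Λ z hz w) ≤
        T * g (w - x) := by
      simp only [hg]
      rw [hT, ← Real.exp_add, ← Real.exp_add]
      refine Real.exp_le_exp.2 ?_
      have e1 := dl_lip hz x w
      rw [tnorm_sub_comm x w] at e1
      have n1 := tnorm_nonneg (w - x)
      have n2 := dl_nonneg hz w
      have e3 : m * dl Λ z hz x ≤ m * (tnorm (w - x) + dl Λ z hz w) :=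
        mul_le_mul_of_nonneg_left e1 hmp.le
      have e4 : m * dl Λ z hz w ≤ m0 * dl Λ z hz w := mul_le_mul_of_nonneg_right hmb n2
      have e5 : m * tnorm (w - x) ≤ a / 2 * tnorm (w - x) := mul_le_mul_of_nonneg_right hma n1
      nlinarith
    calc (4 * A * Real.exp (-a * tnorm (w - x))) * (C * Real.exp (-m0 * dl Λ z hz w))
        = 4 * A * C * (Real.exp (-a * tnorm (w - x)) * Real.exp (-m0 * dl Λ z hz w)) := by ring
      _ ≤ 4 * A * C * (T * g (w - x)) := mul_le_mul_of_nonneg_left h6 (by positivity)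
      _ = _ := by ring
  have hsum : ∑ w : Tor L, kap c x w * uu Λ z c i w ≤ 4 * A * C * T * Kl := by
    calc ∑ w : Tor L, kap c x w * uu Λ z c i w
        ≤ ∑ w : Tor L, 4 * A * C * T * g (w - x) := Finset.sum_le_sum fun w _ => hterm w
      _ = 4 * A * C * T * ∑ w : Tor L, g (w - x) := (Finset.mul_sum _ _ _).symm
      _ ≤ 4 * A * C * T * Kl := by
          refine mul_le_mul_of_nonneg_left ?_ (by positivity)
          rw [AuxFin269.sum_shift g x]
          exact hgsum
  unfold eps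
  have h3 : (0 : ℝ) ≤ N := Nat.cast_nonneg N
  have h4 := mul_le_mul_of_nonneg_left hsum h3
  nlinarith

end Pool.Agent.Q218.ON
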